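import Mathlib

/-! The integral of the conjectured pair counting function. -/

open MeasureTheory Set Filter Topology

namespace Helper488PC

/-- the square of the sine kernel -/
noncomputable def sc (v : ℝ) : ℝ := Real.sinc (Real.pi * v) ^ 2

lemma sc_cont : Continuous sc := by
  unfold sc
  exact (Real.continuous_sinc.comp (by fun_prop)).pow 2

lemma sc_nonneg (v : ℝ) : 0 ≤ sc v := sq_nonneg _

lemma sc_le_one (v : ℝ) : sc v ≤ 1 := by
  unfold sc
  have h1 := Real.neg_one_le_sinc (Real.pi * v)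
  have h2 := Real.sinc_le_one (Real.pi * v)
  nlinarith

lemma sc_eq {v : ℝ} (hv : 0 < v) : sc v = (1 - Real.cos (2 * Real.pi * v)) / (2 * Real.pi ^ 2 * v ^ 2) := by
  have hpi := Real.pi_pos
  unfold sc
  rw [Real.sinc_of_ne_zero (by positivity), div_pow, Real.sin_sq_eq_half_sub]
  rw [show 2 * (Real.pi * v) = 2 * Real.pi * v by ring]
  field_simp

lemma sc_le {v : ℝ} (hv : 0 < v) : sc v ≤ 1 / (Real.pi ^ 2) * (v ^ 2)⁻¹ := by
  have hpi := Real.pi_pos
  have h1 := Real.neg_one_le_cos (2 * Real.pi * v)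
  rw [sc_eq hv, div_le_iff₀ (by positivity)]
  have e : 1 / Real.pi ^ 2 * (v ^ 2)⁻¹ * (2 * Real.pi ^ 2 * v ^ 2) = 2 := by
    field_simp
  rw [e]
  linarith

/-- `∫_0^u sc` -/
noncomputable def gsc (u : ℝ) : ℝ := ∫ v in (0 : ℝ)..u, sc v

/-- the predicted number of pairs -/
noncomputable def pred (a : ℝ) : ℝ := ∫ u in (0 : ℝ)..a, (1 - Real.sinc (Real.pi * u) ^ 2)

lemma pred_eq (a : ℝ) : pred a = a - gsc a := by
  have h : pred a = ∫ u in (0 : ℝ)..a, (1 - sc u) := rfl
  rw [h, intervalIntegral.integral_sub intervalIntegrable_const (sc_cont.intervalIntegrable _ _),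
    intervalIntegral.integral_const, smul_eq_mul, mul_one, sub_zero]
  rfl

lemma gsc_deriv (u : ℝ) : HasDerivAt gsc (sc u) u :=
  intervalIntegral.integral_hasDerivAt_right (sc_cont.intervalIntegrable _ _)
    (sc_cont.stronglyMeasurableAtFilter _ _) sc_cont.continuousAt

lemma gsc_cont : Continuous gsc :=
  continuous_iff_continuousAt.2 fun u => (gsc_deriv u).continuousAt

lemma gsc_nonneg {u : ℝ} (hu : 0 ≤ u) : 0 ≤ gsc u :=
  intervalIntegral.integral_nonneg hu fun v _ => sc_nonneg v

/-- the total mass -/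
def Mass : Prop := Integrable sc ∧ ∫ v in Ioi (0 : ℝ), sc v = 1 / 2

lemma gsc_bounds (hM : Mass) {u : ℝ} (hu : 0 < u) :
    0 ≤ 1 / 2 - gsc u ∧ 1 / 2 - gsc u ≤ 1 / (Real.pi ^ 2) * u⁻¹ := by
  have hpi := Real.pi_pos
  obtain ⟨hi, hm⟩ := hM
  have h1 : ∫ v in Ioi (0 : ℝ), sc v = gsc u + ∫ v in Ioi u, sc v := by
    unfold gsc
    rw [intervalIntegral.integral_of_le hu.le, ← Ioc_union_Ioi_eq_Ioi hu.le,
      setIntegral_union Ioc_disjoint_Ioi_same measurableSet_Ioi hi.integrableOn hi.integrableOn]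
  have h2 : 1 / 2 - gsc u = ∫ v in Ioi u, sc v := by linarith
  rw [h2]
  constructor
  · exact setIntegral_nonneg measurableSet_Ioi fun v _ => sc_nonneg v
  · have h3 : IntegrableOn (fun v : ℝ => v ^ (-2 : ℝ)) (Ioi u) :=
      integrableOn_Ioi_rpow_of_lt (by norm_num) hu
    have h4 : ∫ v in Ioi u, v ^ (-2 : ℝ) = u⁻¹ := by
      rw [integral_Ioi_rpow_of_lt (by norm_num) hu]
      rw [show (-2 : ℝ) + 1 = -1 by norm_num, Real.rpow_neg_one]
      ring
    calc ∫ v in Ioi u, sc v ≤ ∫ v in Ioi u, 1 / (Real.pi ^ 2) * v ^ (-2 : ℝ) := by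
          refine setIntegral_mono_on hi.integrableOn (h3.const_mul _) measurableSet_Ioi
            fun v hv => ?_
          rw [mem_Ioi] at hv
          have hv0 : 0 < v := hu.trans hv
          refine (sc_le hv0).trans (le_of_eq ?_)
          rw [Real.rpow_neg hv0.le]
          norm_cast
      _ = _ := by rw [integral_const_mul, h4]

/-- integration by parts -/
lemma parts (a : ℝ) : ∫ u in (0 : ℝ)..a, (1 / 2 - gsc u) =
    a * (1 / 2 - gsc a) + ∫ u in (0 : ℝ)..a, u * sc u := by
  have h1 : ∀ u ∈ uIcc (0 : ℝ) a, HasDerivAt (fun u => u * (1 / 2 - gsc u))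
      ((1 / 2 - gsc u) - u * sc u) u := by
    intro u _
    have := (hasDerivAt_id' u).mul ((gsc_deriv u).const_sub (1 / 2))
    refine this.congr_deriv ?_
    ring
  have hc1 : Continuous fun u : ℝ => (1 / 2 - gsc u) := continuous_const.sub gsc_cont
  have hc2 : Continuous fun u : ℝ => u * sc u := continuous_id.mul sc_cont
  have h2 := intervalIntegral.integral_eq_sub_of_hasDerivAt h1
    ((hc1.sub hc2).intervalIntegrable _ _)
  rw [intervalIntegral.integral_sub (hc1.intervalIntegrable _ _) (hc2.intervalIntegrable _ _)] at h2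
  linarith

/-- the logarithm -/
lemma log_int {a : ℝ} (ha : 1 ≤ a) :
    |(∫ u in (1 : ℝ)..a, u * sc u) - 1 / (2 * Real.pi ^ 2) * Real.log a| ≤ 1 := by
  have hpi := Real.pi_gt_three
  have hpi0 := Real.pi_pos
  set G : ℝ → ℝ := fun v => 1 / (2 * Real.pi ^ 2) * (Real.log v - Real.sin (2 * Real.pi * v) /
    (2 * Real.pi * v)) with hG
  have hd : ∀ v ∈ uIcc (1 : ℝ) a, HasDerivAt G (v * sc v + 1 / (2 * Real.pi ^ 2) *
      (Real.sin (2 * Real.pi * v) / (2 * Real.pi * v ^ 2))) v := by
    intro v hv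
    rw [uIcc_of_le ha] at hv
    have hv0 : 0 < v := by linarith [hv.1]
    have h1 := Real.hasDerivAt_log hv0.ne'
    have h2 : HasDerivAt (fun v : ℝ => 2 * Real.pi * v) (2 * Real.pi) v := by
      simpa using (hasDerivAt_id' v).const_mul (2 * Real.pi)
    have h3 := (Real.hasDerivAt_sin (2 * Real.pi * v)).comp v h2
    have h4 := h3.div h2 (by positivity)
    have h5 := (h1.sub h4).const_mul (1 / (2 * Real.pi ^ 2))
    refine h5.congr_deriv ?_
    rw [sc_eq hv0]
    simp only [Function.comp]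
    field_simp
    ring
  have hc1 : Continuous fun u : ℝ => u * sc u := continuous_id.mul sc_cont
  have hc2 : ContinuousOn (fun v : ℝ => 1 / (2 * Real.pi ^ 2) *
      (Real.sin (2 * Real.pi * v) / (2 * Real.pi * v ^ 2))) (uIcc 1 a) := by
    rw [uIcc_of_le ha]
    refine ContinuousOn.mul continuousOn_const (ContinuousOn.div (by fun_prop) (by fun_prop) ?_)
    intro v hv
    have hv0 : 0 < v := by linarith [hv.1]
    positivity
  have h2 := intervalIntegral.integral_eq_sub_of_hasDerivAt hd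
    ((hc1.intervalIntegrable _ _).add hc2.intervalIntegrable)
  rw [intervalIntegral.integral_add (hc1.intervalIntegrable _ _) hc2.intervalIntegrable] at h2
  have hG1 : G 1 = 0 := by
    simp only [hG, mul_one, Real.log_one]
    rw [Real.sin_two_pi]; simp
  have hb : |∫ v in (1 : ℝ)..a, 1 / (2 * Real.pi ^ 2) *
      (Real.sin (2 * Real.pi * v) / (2 * Real.pi * v ^ 2))| ≤ 1 / 2 := by
    have hi2 : IntervalIntegrable (fun v : ℝ => v ^ (-2 : ℝ)) volume 1 a :=
      intervalIntegral.intervalIntegrable_rpow (Or.inr (by rw [uIcc_of_le ha]; intro h; linarith [h.1]))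
    have h3 := intervalIntegral.norm_integral_le_of_norm_le (a := 1) (b := a) (μ := volume)
      (f := fun v : ℝ => 1 / (2 * Real.pi ^ 2) *
      (Real.sin (2 * Real.pi * v) / (2 * Real.pi * v ^ 2)))
      (g := fun v : ℝ => 1 / 2 * v ^ (-2 : ℝ)) ha (by
        refine Filter.Eventually.of_forall fun v hv => ?_
        have hv0 : 0 < v := by linarith [hv.1]
        rw [Real.norm_eq_abs, abs_mul, abs_of_pos (by positivity : 0 < 1 / (2 * Real.pi ^ 2)), abs_div,
          abs_of_pos (by positivity : 0 < 2 * Real.pi * v ^ 2)]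
        have h5 := Real.abs_sin_le_one (2 * Real.pi * v)
        have e : v ^ (-2 : ℝ) = 1 / v ^ 2 := by
          rw [Real.rpow_neg hv0.le]; norm_cast; rw [one_div]
        rw [e]
        have h6 : |Real.sin (2 * Real.pi * v)| / (2 * Real.pi * v ^ 2) ≤ 1 / v ^ 2 := by
          rw [div_le_div_iff₀ (by positivity) (by positivity)]
          nlinarith [sq_nonneg v, abs_nonneg (Real.sin (2 * Real.pi * v))]
        have h7 : 1 / (2 * Real.pi ^ 2) ≤ 1 / 2 := by
          apply one_div_le_one_div_of_le (by norm_num)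
          nlinarith
        exact mul_le_mul h7 h6 (by positivity) (by norm_num)) (hi2.const_mul _)
    rw [Real.norm_eq_abs] at h3
    refine h3.trans ?_
    rw [intervalIntegral.integral_const_mul, integral_rpow (Or.inr ⟨by norm_num, by
      rw [uIcc_of_le ha]; intro h; linarith [h.1]⟩)]
    have : 0 ≤ a ^ (-2 + 1 : ℝ) := Real.rpow_nonneg (by linarith) _
    norm_num at this ⊢
    linarith
  have hGa : |G a - 1 / (2 * Real.pi ^ 2) * Real.log a| ≤ 1 / 2 := by
    have e : G a - 1 / (2 * Real.pi ^ 2) * Real.log a =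
        -(1 / (2 * Real.pi ^ 2) * (Real.sin (2 * Real.pi * a) / (2 * Real.pi * a))) := by
      simp only [hG]; ring
    rw [e, abs_neg, abs_mul, abs_of_pos (by positivity : 0 < 1 / (2 * Real.pi ^ 2)), abs_div,
      abs_of_pos (by positivity : 0 < 2 * Real.pi * a)]
    have h5 := Real.abs_sin_le_one (2 * Real.pi * a)
    have h6 : |Real.sin (2 * Real.pi * a)| / (2 * Real.pi * a) ≤ 1 := by
      rw [div_le_one (by positivity)]
      nlinarith
    have h7 : 1 / (2 * Real.pi ^ 2) ≤ 1 / 2 := by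
      apply one_div_le_one_div_of_le (by norm_num)
      nlinarith
    calc _ ≤ 1 / 2 * 1 := mul_le_mul h7 h6 (by positivity) (by norm_num)
      _ = _ := by norm_num
  rw [hG1, sub_zero] at h2
  rw [abs_le] at hb hGa ⊢
  constructor <;> linarith [hb.1, hb.2, hGa.1, hGa.2]

lemma usc_bound {a : ℝ} (ha : 0 ≤ a) :
    |(∫ u in (0 : ℝ)..a, u * sc u) - 1 / (2 * Real.pi ^ 2) * Real.log (1 + a)| ≤ 3 := by
  have hpi := Real.pi_gt_three
  have hpi0 := Real.pi_pos
  have hc1 : Continuous fun u : ℝ => u * sc u := continuous_id.mul sc_cont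
  have h7 : 1 / (2 * Real.pi ^ 2) ≤ 1 := by
    rw [div_le_one (by positivity)]
    nlinarith
  have h70 : 0 ≤ 1 / (2 * Real.pi ^ 2) := by positivity
  have small : ∀ b : ℝ, 0 ≤ b → b ≤ 1 → |∫ u in (0 : ℝ)..b, u * sc u| ≤ 1 := by
    intro b hb0 hb1
    rw [abs_of_nonneg (intervalIntegral.integral_nonneg hb0 fun u hu =>
      mul_nonneg hu.1 (sc_nonneg u))]
    have := intervalIntegral.integral_mono_on hb0 (hc1.intervalIntegrable 0 b)
      (intervalIntegrable_const : IntervalIntegrable (fun _ : ℝ => (1 : ℝ)) volume 0 b) (fun u hu => by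
        have h1 := sc_le_one u
        have h2 := sc_nonneg u
        have h3 := hu.1
        have h4 : u ≤ 1 := hu.2.trans hb1
        nlinarith)
    rw [intervalIntegral.integral_const, smul_eq_mul, sub_zero, mul_one] at this
    linarith
  rcases le_or_gt a 1 with h1 | h1
  · have h2 := small a ha h1
    have h3 : 0 ≤ Real.log (1 + a) := Real.log_nonneg (by linarith)
    have h4 : Real.log (1 + a) ≤ 1 := by
      have := Real.log_le_sub_one_of_pos (by linarith : 0 < 1 + a)
      linarith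
    have h5 : 1 / (2 * Real.pi ^ 2) * Real.log (1 + a) ≤ 1 := by nlinarith
    have h6 : 0 ≤ 1 / (2 * Real.pi ^ 2) * Real.log (1 + a) := by positivity
    rw [abs_le] at h2 ⊢
    constructor <;> linarith [h2.1, h2.2]
  · have h2 := small 1 zero_le_one le_rfl
    have h3 := log_int h1.le
    rw [← intervalIntegral.integral_add_adjacent_intervals (hc1.intervalIntegrable 0 1)
      (hc1.intervalIntegrable 1 a)]
    have h4 : Real.log a ≤ Real.log (1 + a) := Real.log_le_log (by linarith) (by linarith)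
    have h5 : Real.log (1 + a) ≤ Real.log a + 1 := by
      have h6 : Real.log (1 + a) ≤ Real.log (2 * a) := Real.log_le_log (by linarith) (by linarith)
      rw [Real.log_mul (by norm_num) (by linarith)] at h6
      have := Real.log_two_lt_d9
      linarith
    have h8 : 1 / (2 * Real.pi ^ 2) * Real.log a ≤ 1 / (2 * Real.pi ^ 2) * Real.log (1 + a) :=
      mul_le_mul_of_nonneg_left h4 h70
    have h9 : 1 / (2 * Real.pi ^ 2) * Real.log (1 + a) ≤ 1 / (2 * Real.pi ^ 2) * Real.log a + 1 := by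
      have := mul_le_mul_of_nonneg_left h5 h70
      linarith
    rw [abs_le] at h2 h3 ⊢
    constructor <;> linarith [h2.1, h2.2, h3.1, h3.2]

/-- **the integral of the prediction** -/
theorem pred_int (hM : Mass) {a : ℝ} (ha : 0 ≤ a) :
    |(∫ u in (0 : ℝ)..a, pred u) - (a ^ 2 / 2 - a / 2 + 1 / (2 * Real.pi ^ 2) * Real.log (1 + a))| ≤
      4 := by
  have hpi := Real.pi_gt_three
  have hpi0 := Real.pi_pos
  have hc1 : Continuous fun u : ℝ => (1 / 2 - gsc u) := continuous_const.sub gsc_cont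
  have e1 : ∫ u in (0 : ℝ)..a, pred u = a ^ 2 / 2 - a / 2 + ∫ u in (0 : ℝ)..a, (1 / 2 - gsc u) := by
    have h1 : ∀ u, pred u = (u - 1 / 2) + (1 / 2 - gsc u) := fun u => by rw [pred_eq]; ring
    have h2 : ∫ u in (0 : ℝ)..a, (u - 1 / 2) = a ^ 2 / 2 - a / 2 := by
      have hid : IntervalIntegrable (fun u : ℝ => u) volume 0 a := continuous_id.intervalIntegrable _ _
      have hcn : IntervalIntegrable (fun _ : ℝ => (1 / 2 : ℝ)) volume 0 a := intervalIntegrable_const
      have h3 := intervalIntegral.integral_sub hid hcn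
      rw [integral_id, intervalIntegral.integral_const, smul_eq_mul] at h3
      rw [h3]
      ring
    simp_rw [h1]
    rw [intervalIntegral.integral_add ((by fun_prop : Continuous fun u : ℝ => u - 1 / 2).intervalIntegrable _ _)
      (hc1.intervalIntegrable _ _), h2]
  rw [e1, parts]
  have h2 := usc_bound ha
  have h3 : 0 ≤ a * (1 / 2 - gsc a) ∧ a * (1 / 2 - gsc a) ≤ 1 := by
    rcases ha.eq_or_lt with h | h
    · rw [← h]; simp
    · obtain ⟨g1, g2⟩ := gsc_bounds hM h
      refine ⟨by positivity, ?_⟩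
      calc a * (1 / 2 - gsc a) ≤ a * (1 / Real.pi ^ 2 * a⁻¹) := mul_le_mul_of_nonneg_left g2 ha
        _ = 1 / Real.pi ^ 2 := by field_simp
        _ ≤ 1 := by rw [div_le_one (by positivity)]; nlinarith
  rw [abs_le] at h2 ⊢
  constructor <;> linarith [h2.1, h2.2, h3.1, h3.2]

lemma pred_bounds (hM : Mass) {a : ℝ} (ha : 0 ≤ a) : a - 1 / 2 ≤ pred a ∧ pred a ≤ a := by
  rw [pred_eq]
  have h1 := gsc_nonneg ha
  constructor
  · rcases ha.eq_or_lt with h | h
    · rw [← h]; unfold gsc; simp
    · linarith [(gsc_bounds hM h).1]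
  · linarith

end Helper488PC
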