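import Pool.Agent.Helper488_pc.Quad
import Pool.Agent.H382R2.Final0
import Pool.Agent.TH850.UV.NVh
import Pool.Agent.W54.TCF.NT

/-! The windowed counts of the zeros of zeta. -/

open MeasureTheory Set Filter Topology
open scoped BigOperators
open SG (NZ ZS ZS_finite zmult NZ_eq NZ_mono NZ_nonpos)

namespace Helper488PC

/-- the zeros with ordinate in `(0, T]` -/
noncomputable def Z (T : ℝ) : Finset ℂ := (ZS_finite T).toFinset

lemma mem_Z {T : ℝ} {s : ℂ} : s ∈ Z T ↔ s ∈ ZS T := by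
  unfold Z
  rw [Set.Finite.mem_toFinset]

/-- multiplicities -/
noncomputable def zm (s : ℂ) : ℝ := (zmult s : ℝ)

lemma zm_nonneg (s : ℂ) : 0 ≤ zm s := Nat.cast_nonneg _

/-- the ordinate -/
noncomputable def im (s : ℂ) : ℝ := s.im

/-- the number of zeros with ordinate in `(t, t + h]` -/
noncomputable def n (h t : ℝ) : ℝ := (NZ (t + h) : ℝ) - NZ t

lemma n_nonneg {h : ℝ} (hh : 0 ≤ h) (t : ℝ) : 0 ≤ n h t := by
  unfold n
  have : NZ t ≤ NZ (t + h) := NZ_mono (by linarith)
  have h2 : (NZ t : ℝ) ≤ NZ (t + h) := by exact_mod_cast this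
  linarith

lemma n_eq {h : ℝ} (hh : 0 ≤ h) (t : ℝ) :
    n h t = ∑ s ∈ (Z (t + h)).filter (fun s => t < s.im), zm s := by
  classical
  have h1 : (NZ (t + h) : ℝ) = ∑ s ∈ Z (t + h), zm s := by
    rw [NZ_eq]; unfold zm Z; push_cast; rfl
  have h2 : (NZ t : ℝ) = ∑ s ∈ (Z (t + h)).filter (fun s => ¬ t < s.im), zm s := by
    rw [NZ_eq]
    unfold zm
    push_cast
    refine Finset.sum_congr ?_ fun _ _ => rfl
    ext s
    rw [Finset.mem_filter, Set.Finite.mem_toFinset, mem_Z]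
    constructor
    · rintro ⟨a1, a2, a3, a4, a5⟩
      exact ⟨⟨a1, a2, a3, a4, by linarith⟩, not_lt.mpr a5⟩
    · rintro ⟨⟨a1, a2, a3, a4, _⟩, a5⟩
      exact ⟨a1, a2, a3, a4, not_lt.mp a5⟩
  unfold n
  rw [h1, h2, ← Finset.sum_filter_add_sum_filter_not (Z (t + h)) (fun s => t < s.im) zm]
  ring

lemma win_eq_filter (T h t : ℝ) : win (Z T) zm im h t =
    ∑ s ∈ (Z T).filter (fun s => t < s.im ∧ s.im ≤ t + h), zm s := by
  classical
  unfold win im
  rw [Finset.sum_filter]
  refine Finset.sum_congr rfl fun s _ => ?_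
  split_ifs <;> simp

lemma win_nonneg (T h t : ℝ) : 0 ≤ win (Z T) zm im h t := by
  rw [win_eq_filter]
  exact Finset.sum_nonneg fun s _ => zm_nonneg s

lemma win_le {h : ℝ} (hh : 0 ≤ h) (T t : ℝ) : win (Z T) zm im h t ≤ n h t := by
  rw [win_eq_filter, n_eq hh]
  refine Finset.sum_le_sum_of_subset_of_nonneg ?_ fun s _ _ => zm_nonneg s
  intro s hs
  rw [Finset.mem_filter, mem_Z] at hs ⊢
  exact ⟨⟨hs.1.1, hs.1.2.1, hs.1.2.2.1, hs.1.2.2.2.1, hs.2.2⟩, hs.2.1⟩

lemma win_eq {h T t : ℝ} (hh : 0 ≤ h) (ht : t + h ≤ T) : win (Z T) zm im h t = n h t := by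
  rw [win_eq_filter, n_eq hh]
  congr 1
  ext s
  rw [Finset.mem_filter, Finset.mem_filter, mem_Z, mem_Z]
  constructor
  · rintro ⟨⟨a1, a2, a3, a4, _⟩, a5, a6⟩
    exact ⟨⟨a1, a2, a3, a4, a6⟩, a5⟩
  · rintro ⟨⟨a1, a2, a3, a4, a6⟩, a5⟩
    exact ⟨⟨a1, a2, a3, a4, by linarith⟩, a5, a6⟩

lemma win_zero_right {h T t : ℝ} (ht : T ≤ t) : win (Z T) zm im h t = 0 := by
  rw [win_eq_filter]
  refine Finset.sum_eq_zero fun s hs => ?_
  rw [Finset.mem_filter, mem_Z] at hs
  have := hs.1.2.2.2.2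
  linarith [hs.2.1]

lemma win_zero_left {h T t : ℝ} (ht : t + h ≤ 0) : win (Z T) zm im h t = 0 := by
  rw [win_eq_filter]
  refine Finset.sum_eq_zero fun s hs => ?_
  rw [Finset.mem_filter, mem_Z] at hs
  have := hs.1.2.2.2.1
  linarith [hs.2.2]

lemma NZ_NN (T : ℝ) : (NZ T : ℝ) = (H370.NN riemannZeta 0 T : ℝ) := by
  congr 1
  unfold NZ H370.NN
  have e : {s : ℂ | riemannZeta s = 0 ∧ 0 < s.re ∧ s.re < 1 ∧ 0 < s.im ∧ s.im ≤ T} =
      H370.zset riemannZeta 0 T := by
    ext s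
    simp only [H370.zset, Set.mem_ofPred_eq]
    tauto
  rw [e]
  rfl

/-- the crude bound -/
lemma crude : ∃ C : ℝ, 0 < C ∧ ∀ T : ℝ, 10 ≤ T → ∀ t h : ℝ, t ≤ T + 1 → 0 ≤ h → h ≤ 1 →
    n h t ≤ C * Real.log T := by
  obtain ⟨C, hC, hz⟩ := H370.zcount H370.good_zeta
  refine ⟨2 * C + NZ 4, by positivity, fun T hT t h ht h0 h1 => ?_⟩
  have hlog1 : 1 ≤ Real.log T := by
    rw [Real.le_log_iff_exp_le (by linarith)]
    have := Real.exp_one_lt_d9
    linarith
  have hNZ4 : (0 : ℝ) ≤ NZ 4 := Nat.cast_nonneg _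
  rcases le_or_gt t 3 with h3 | h3
  · have h4 : NZ (t + h) ≤ NZ 4 := NZ_mono (by linarith)
    have h5 : (NZ (t + h) : ℝ) ≤ NZ 4 := by exact_mod_cast h4
    have h6 : (0 : ℝ) ≤ NZ t := Nat.cast_nonneg _
    unfold n
    nlinarith
  · have h4 := hz t h3.le
    have h5 : n h t ≤ (H370.NN riemannZeta (t - 1) (t + 1) : ℝ) := by
      rw [n_eq h0, H370.NN_eq H370.good_zeta (by linarith)]
      push_cast
      refine Finset.sum_le_sum_of_subset_of_nonneg ?_ fun s _ _ => Nat.cast_nonneg _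
      intro s hs
      rw [Finset.mem_filter, mem_Z] at hs
      rw [H370.mem_Zf H370.good_zeta (by linarith)]
      exact ⟨hs.1.2.1, hs.1.2.2.1, by linarith [hs.2], by linarith [hs.1.2.2.2.2], hs.1.1⟩
    have h6 : Real.log t ≤ 2 * Real.log T := by
      have : Real.log t ≤ Real.log (T ^ 2) := Real.log_le_log (by linarith) (by nlinarith)
      rw [Real.log_pow] at this
      exact_mod_cast this
    nlinarith

/-- monotone functions of the counting function -/
lemma nsq_int (h A B : ℝ) : IntervalIntegrable (fun t => n h t ^ 2) volume A B := by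
  have m1 : Monotone fun t : ℝ => (NZ (t + h) : ℝ) * NZ (t + h) := fun x y hxy => by
    have : (NZ (x + h) : ℝ) ≤ NZ (y + h) := by exact_mod_cast NZ_mono (by linarith : x + h ≤ y + h)
    have h0 : (0 : ℝ) ≤ NZ (x + h) := Nat.cast_nonneg _
    exact mul_le_mul this this h0 (h0.trans this)
  have m2 : Monotone fun t : ℝ => (NZ (t + h) : ℝ) * NZ t := fun x y hxy => by
    have : (NZ (x + h) : ℝ) ≤ NZ (y + h) := by exact_mod_cast NZ_mono (by linarith : x + h ≤ y + h)
    have h0 : (0 : ℝ) ≤ NZ (x + h) := Nat.cast_nonneg _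
    have h2 : (NZ x : ℝ) ≤ NZ y := by exact_mod_cast NZ_mono hxy
    have h3 : (0 : ℝ) ≤ NZ x := Nat.cast_nonneg _
    exact mul_le_mul this h2 h3 (h0.trans this)
  have m3 : Monotone fun t : ℝ => (NZ t : ℝ) * NZ t := fun x y hxy => by
    have h2 : (NZ x : ℝ) ≤ NZ y := by exact_mod_cast NZ_mono hxy
    have h3 : (0 : ℝ) ≤ NZ x := Nat.cast_nonneg _
    exact mul_le_mul h2 h2 h3 (h3.trans h2)
  have e : (fun t => n h t ^ 2) = fun t => (NZ (t + h) : ℝ) * NZ (t + h) -
      2 * ((NZ (t + h) : ℝ) * NZ t) + (NZ t : ℝ) * NZ t := by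
    funext t; unfold n; ring
  rw [e]
  exact (m1.intervalIntegrable.sub (m2.intervalIntegrable.const_mul 2)).add m3.intervalIntegrable

lemma NZ_int (A B : ℝ) : IntervalIntegrable (fun t => (NZ t : ℝ)) volume A B := by
  have m : Monotone fun t : ℝ => (NZ t : ℝ) := fun x y hxy => by
    show (NZ x : ℝ) ≤ NZ y
    exact_mod_cast NZ_mono hxy
  exact m.intervalIntegrable

lemma NZ_int' (h A B : ℝ) : IntervalIntegrable (fun t => (NZ (t + h) : ℝ)) volume A B := by
  have m : Monotone fun t : ℝ => (NZ (t + h) : ℝ) := fun x y hxy => by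
    show (NZ (x + h) : ℝ) ≤ NZ (y + h)
    exact_mod_cast NZ_mono (by linarith : x + h ≤ y + h)
  exact m.intervalIntegrable

lemma n_int (h A B : ℝ) : IntervalIntegrable (fun t => n h t) volume A B :=
  (NZ_int' h A B).sub (NZ_int A B)

/-- the pair sum and the second moment of the counts -/
lemma quad_n {C T h : ℝ} (hC : 0 < C) (hT : 10 ≤ T) (h0 : 0 ≤ h) (h1 : h ≤ 1)
    (hc : ∀ t h : ℝ, t ≤ T + 1 → 0 ≤ h → h ≤ 1 → n h t ≤ C * Real.log T) :
    |quad (Z T) zm im h - ∫ t in (0 : ℝ)..T, n h t ^ 2| ≤ (C * Real.log T) ^ 2 := by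
  have hlog : 0 ≤ Real.log T := Real.log_nonneg (by linarith)
  have hw := win_sq_integrable (Z T) zm im h
  have hle : ∀ t, t ≤ T + 1 → n h t ^ 2 ≤ (C * Real.log T) ^ 2 := fun t ht => by
    have := hc t h ht h0 h1
    have h3 := n_nonneg h0 t
    nlinarith
  -- total integral
  have e1 : quad (Z T) zm im h = ∫ t in (-h)..T, win (Z T) zm im h t ^ 2 := by
    rw [← win_sq_int, intervalIntegral.integral_of_le (by linarith)]
    symm
    apply setIntegral_eq_integral_of_forall_compl_eq_zero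
    intro t ht
    rw [mem_Ioc, not_and_or, not_lt, not_le] at ht
    rcases ht with ht | ht
    · rw [win_zero_left (by linarith)]; ring
    · rw [win_zero_right ht.le]; ring
  have hwi : ∀ A B, IntervalIntegrable (fun t => win (Z T) zm im h t ^ 2) volume A B :=
    fun A B => hw.intervalIntegrable
  have s1 := intervalIntegral.integral_add_adjacent_intervals (hwi (-h) 0) (hwi 0 T)
  have s2 := intervalIntegral.integral_add_adjacent_intervals (hwi 0 (T - h)) (hwi (T - h) T)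
  have s3 := intervalIntegral.integral_add_adjacent_intervals (nsq_int h 0 (T - h))
    (nsq_int h (T - h) T)
  have b1 : ∫ t in (-h)..0, win (Z T) zm im h t ^ 2 ≤ h * (C * Real.log T) ^ 2 := by
    have := intervalIntegral.integral_mono_on (by linarith : -h ≤ 0) (hwi (-h) 0)
      (intervalIntegrable_const (c := (C * Real.log T) ^ 2)) (fun t ht => by
        have h3 := win_le h0 T t
        have h4 := win_nonneg T h t
        have h5 := hle t (by linarith [ht.2])
        nlinarith)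
    rw [intervalIntegral.integral_const, smul_eq_mul] at this
    linarith
  have b2 : 0 ≤ ∫ t in (-h)..0, win (Z T) zm im h t ^ 2 :=
    intervalIntegral.integral_nonneg (by linarith) fun t _ => sq_nonneg _
  have b3 : ∫ t in (0 : ℝ)..T, win (Z T) zm im h t ^ 2 ≤ ∫ t in (0 : ℝ)..T, n h t ^ 2 :=
    intervalIntegral.integral_mono_on (by linarith) (hwi 0 T) (nsq_int h 0 T) fun t _ => by
      have h3 := win_le h0 T t
      have h4 := win_nonneg T h t
      nlinarith
  have b4 : ∫ t in (0 : ℝ)..(T - h), win (Z T) zm im h t ^ 2 =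
      ∫ t in (0 : ℝ)..(T - h), n h t ^ 2 := by
    refine intervalIntegral.integral_congr fun t ht => ?_
    rw [uIcc_of_le (by linarith)] at ht
    show win (Z T) zm im h t ^ 2 = n h t ^ 2
    rw [win_eq h0 (by linarith [ht.2])]
  have b5 : ∫ t in (T - h)..T, n h t ^ 2 ≤ h * (C * Real.log T) ^ 2 := by
    have := intervalIntegral.integral_mono_on (by linarith : T - h ≤ T) (nsq_int h (T - h) T)
      (intervalIntegrable_const (c := (C * Real.log T) ^ 2)) (fun t ht => hle t (by linarith [ht.2]))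
    rw [intervalIntegral.integral_const, smul_eq_mul] at this
    linarith
  have b6 : 0 ≤ ∫ t in (T - h)..T, win (Z T) zm im h t ^ 2 :=
    intervalIntegral.integral_nonneg (by linarith) fun t _ => sq_nonneg _
  have hh : h * (C * Real.log T) ^ 2 ≤ (C * Real.log T) ^ 2 := by
    have := sq_nonneg (C * Real.log T)
    nlinarith
  rw [e1, abs_le]
  constructor <;> linarith

end Helper488PC
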