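import Mathlib

/-! From dyadic blocks to `[0, T]`: the second moment of the counts. -/

open MeasureTheory Set Filter Topology

namespace Helper488PC

/-- increments of a counting function -/
noncomputable def nn (N : ℝ → ℝ) (h t : ℝ) : ℝ := N (t + h) - N t

/-- the main term -/
noncomputable def Am (a : ℝ) : ℝ := a ^ 2 + 1 / Real.pi ^ 2 * Real.log (1 + a)

variable {N : ℝ → ℝ}

lemma mono_int (hm : Monotone N) (h A B : ℝ) :
    IntervalIntegrable (fun t => N (t + h)) volume A B := by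
  have m : Monotone fun t : ℝ => N (t + h) := fun x y hxy => hm (by linarith)
  exact m.intervalIntegrable

lemma nn_int (hm : Monotone N) (h A B : ℝ) : IntervalIntegrable (fun t => nn N h t) volume A B :=
  (mono_int hm h A B).sub hm.intervalIntegrable

lemma nn_nonneg (hm : Monotone N) {h : ℝ} (hh : 0 ≤ h) (t : ℝ) : 0 ≤ nn N h t := by
  unfold nn
  have := hm (by linarith : t ≤ t + h)
  linarith

lemma nnsq_int (hm : Monotone N) (h0 : ∀ t, 0 ≤ N t) (h A B : ℝ) :
    IntervalIntegrable (fun t => nn N h t ^ 2) volume A B := by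
  have m1 : Monotone fun t : ℝ => N (t + h) * N (t + h) := fun x y hxy =>
    mul_le_mul (hm (by linarith)) (hm (by linarith)) (h0 _) (h0 _)
  have m2 : Monotone fun t : ℝ => N (t + h) * N t := fun x y hxy =>
    mul_le_mul (hm (by linarith)) (hm hxy) (h0 _) (h0 _)
  have m3 : Monotone fun t : ℝ => N t * N t := fun x y hxy =>
    mul_le_mul (hm hxy) (hm hxy) (h0 _) (h0 _)
  have e : (fun t => nn N h t ^ 2) = fun t => N (t + h) * N (t + h) -
      2 * (N (t + h) * N t) + N t * N t := by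
    funext t; unfold nn; ring
  rw [e]
  exact (m1.intervalIntegrable.sub (m2.intervalIntegrable.const_mul 2)).add m3.intervalIntegrable

/-- the first moment -/
lemma first (hm : Monotone N) {C T0 : ℝ} (hC : 0 < C) (hT0 : 10 ≤ T0)
    (hN : ∀ T : ℝ, T0 ≤ T → |N T - T * Real.log T / (2 * Real.pi)| ≤ C * T)
    {X h : ℝ} (hX : T0 ≤ X) (h0 : 0 < h) (h1 : h ≤ 1) :
    |(∫ t in X..(2 * X), nn N h t) - h * (X * Real.log X / (2 * Real.pi))| ≤
      (1 + 4 * C) * h * X := by
  have hX10 : 10 ≤ X := hT0.trans hX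
  have hpi := Real.pi_gt_three
  have hi : ∀ A B, IntervalIntegrable N volume A B := fun A B => hm.intervalIntegrable
  have e1 : ∫ t in X..(2 * X), nn N h t =
      (∫ t in (2 * X)..(2 * X + h), N t) - ∫ t in X..(X + h), N t := by
    unfold nn
    rw [intervalIntegral.integral_sub (mono_int hm h _ _) (hi _ _),
      intervalIntegral.integral_comp_add_right (fun t => N t) h]
    have s1 := intervalIntegral.integral_add_adjacent_intervals (hi X (X + h)) (hi (X + h) (2 * X + h))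
    have s2 := intervalIntegral.integral_add_adjacent_intervals (hi X (2 * X)) (hi (2 * X) (2 * X + h))
    linarith
  have up : ∀ Y : ℝ, ∫ t in Y..(Y + h), N t ≤ h * N (Y + h) := by
    intro Y
    have := intervalIntegral.integral_mono_on (by linarith : Y ≤ Y + h) (hi Y (Y + h))
      (intervalIntegrable_const : IntervalIntegrable (fun _ : ℝ => N (Y + h)) volume Y (Y + h))
      (fun t ht => hm ht.2)
    rw [intervalIntegral.integral_const, smul_eq_mul, add_sub_cancel_left] at this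
    exact this
  have lo : ∀ Y : ℝ, h * N Y ≤ ∫ t in Y..(Y + h), N t := by
    intro Y
    have := intervalIntegral.integral_mono_on (by linarith : Y ≤ Y + h)
      (intervalIntegrable_const : IntervalIntegrable (fun _ : ℝ => N Y) volume Y (Y + h))
      (hi Y (Y + h)) (fun t ht => hm ht.1)
    rw [intervalIntegral.integral_const, smul_eq_mul, add_sub_cancel_left] at this
    exact this
  set L := Real.log X with hL
  have hL0 : 0 ≤ L := Real.log_nonneg (by linarith)
  have hLX : L ≤ X := by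
    have := Real.log_le_sub_one_of_pos (by linarith : 0 < X)
    linarith
  set q := X * L / (2 * Real.pi) with hq
  have hq2 : q * (2 * Real.pi) = X * L := by rw [hq]; field_simp
  have b1 : N (2 * X + h) ≤ 2 * q + X + 3 * C * X := by
    have h2 := (abs_le.1 (hN (2 * X + h) (by linarith))).2
    have h3 : Real.log (2 * X + h) ≤ L + 2 := by
      have h4 : Real.log (2 * X + h) ≤ Real.log (3 * X) := Real.log_le_log (by linarith) (by linarith)
      rw [Real.log_mul (by norm_num) (by linarith)] at h4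
      have h5 := Real.log_le_sub_one_of_pos (by norm_num : (0 : ℝ) < 3)
      linarith
    have h6 : (2 * X + h) * Real.log (2 * X + h) ≤ 2 * (X * L) + 6 * X := by
      calc _ ≤ (2 * X + h) * (L + 2) := mul_le_mul_of_nonneg_left h3 (by linarith)
        _ ≤ (2 * X + 1) * (L + 2) := mul_le_mul_of_nonneg_right (by linarith) (by linarith)
        _ ≤ _ := by nlinarith
    have h7 : (2 * X + h) * Real.log (2 * X + h) / (2 * Real.pi) ≤ 2 * q + X := by
      rw [div_le_iff₀ (by positivity)]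
      nlinarith
    nlinarith
  have b2 : q - C * X ≤ N X := by
    have h2 := (abs_le.1 (hN X hX)).1
    linarith
  have b3 : 2 * q - 2 * C * X ≤ N (2 * X) := by
    have h2 := (abs_le.1 (hN (2 * X) (by linarith))).1
    have h3 : L ≤ Real.log (2 * X) := Real.log_le_log (by linarith) (by linarith)
    have h4 : 2 * q ≤ 2 * X * Real.log (2 * X) / (2 * Real.pi) := by
      rw [le_div_iff₀ (by positivity)]
      nlinarith
    linarith
  have b4 : N (X + h) ≤ q + X + 2 * C * X := by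
    have h2 := (abs_le.1 (hN (X + h) (by linarith))).2
    have h3 : Real.log (X + h) ≤ L + 1 := by
      have h4 : Real.log (X + h) ≤ Real.log (2 * X) := Real.log_le_log (by linarith) (by linarith)
      rw [Real.log_mul (by norm_num) (by linarith)] at h4
      have h5 := Real.log_two_lt_d9
      linarith
    have h6 : (X + h) * Real.log (X + h) ≤ X * L + 3 * X := by
      calc _ ≤ (X + h) * (L + 1) := mul_le_mul_of_nonneg_left h3 (by linarith)
        _ ≤ (X + 1) * (L + 1) := mul_le_mul_of_nonneg_right (by linarith) (by linarith)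
        _ ≤ _ := by nlinarith
    have h7 : (X + h) * Real.log (X + h) / (2 * Real.pi) ≤ q + X := by
      rw [div_le_iff₀ (by positivity)]
      nlinarith
    nlinarith
  rw [e1]
  have u1 := up (2 * X)
  have u2 := lo X
  have u3 := lo (2 * X)
  have u4 := up X
  have v1 : h * N (2 * X + h) - h * N X ≤ h * q + (1 + 4 * C) * h * X := by
    have : N (2 * X + h) - N X ≤ q + (1 + 4 * C) * X := by linarith
    have := mul_le_mul_of_nonneg_left this h0.le
    linarith
  have v2 : h * q - (1 + 4 * C) * h * X ≤ h * N (2 * X) - h * N (X + h) := by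
    have : q - (1 + 4 * C) * X ≤ N (2 * X) - N (X + h) := by linarith
    have := mul_le_mul_of_nonneg_left this h0.le
    linarith
  rw [abs_le]
  constructor <;> linarith

/-- one dyadic block -/
lemma block (hm : Monotone N) (h0 : ∀ t, 0 ≤ N t)
    (hRvM : ∃ C T0 : ℝ, 0 < C ∧ 10 ≤ T0 ∧ ∀ T : ℝ, T0 ≤ T →
      |N T - T * Real.log T / (2 * Real.pi)| ≤ C * T)
    (hnv : ∃ C T0 : ℝ, 0 < C ∧ 10 ≤ T0 ∧ ∀ X : ℝ, T0 ≤ X → ∀ b : ℝ, 0 < b →
      b * Real.log b ≤ Real.log X →
      |(∫ t in X..(2 * X), (nn N (2 * Real.pi * b / Real.log X) t - b) ^ 2) -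
        X / Real.pi ^ 2 * Real.log (1 + b)| ≤ C * X) :
    ∃ C T1 : ℝ, 0 < C ∧ 10 ≤ T1 ∧ ∀ X : ℝ, T1 ≤ X → ∀ b : ℝ, 0 < b → b ^ 2 ≤ Real.log X →
      2 * Real.pi * b / Real.log X ≤ 1 →
      |(∫ t in X..(2 * X), nn N (2 * Real.pi * b / Real.log X) t ^ 2) - Am b * X| ≤ C * X := by
  obtain ⟨C1, S1, hC1, hS1, hN⟩ := hRvM
  obtain ⟨C2, S2, hC2, hS2, hV⟩ := hnv
  have hpi := Real.pi_gt_three
  have hpi4 := Real.pi_lt_four
  refine ⟨C2 + 16 * (1 + 4 * C1), max S1 S2, by positivity, le_max_of_le_left hS1,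
    fun X hX b hb hbX hh1 => ?_⟩
  have hX1 : S1 ≤ X := (le_max_left _ _).trans hX
  have hX2 : S2 ≤ X := (le_max_right _ _).trans hX
  have hX10 : 10 ≤ X := hS1.trans hX1
  have hX0 : 0 < X := by linarith
  have hL : 0 < Real.log X := Real.log_pos (by linarith)
  have hbl : b * Real.log b ≤ Real.log X := by
    have := Real.log_le_sub_one_of_pos hb
    nlinarith
  have v := hV X hX2 b hb hbl
  have hbh : b * (2 * Real.pi * b / Real.log X) ≤ 8 := by
    have : b * (2 * Real.pi * b / Real.log X) = 2 * Real.pi * (b ^ 2 / Real.log X) := by ring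
    rw [this]
    have h3 : b ^ 2 / Real.log X ≤ 1 := (div_le_one hL).2 hbX
    have h4 : 0 ≤ b ^ 2 / Real.log X := by positivity
    nlinarith
  have ef : 2 * Real.pi * b / Real.log X * (X * Real.log X / (2 * Real.pi)) = b * X := by
    field_simp
  have hh0 : 0 < 2 * Real.pi * b / Real.log X := by positivity
  generalize 2 * Real.pi * b / Real.log X = h at *
  have f := first hm hC1 hS1 hN hX1 hh0 hh1
  rw [ef] at f
  have e : ∫ t in X..(2 * X), nn N h t ^ 2 = (∫ t in X..(2 * X), (nn N h t - b) ^ 2) +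
      2 * b * (∫ t in X..(2 * X), nn N h t) - b ^ 2 * X := by
    have i1 := nnsq_int hm h0 h X (2 * X)
    have i2 := nn_int hm h X (2 * X)
    have e2 : ∀ t, (nn N h t - b) ^ 2 = nn N h t ^ 2 - 2 * b * nn N h t + b ^ 2 := fun t => by ring
    simp_rw [e2]
    rw [intervalIntegral.integral_add (i1.sub (i2.const_mul _)) intervalIntegrable_const,
      intervalIntegral.integral_sub i1 (i2.const_mul _), intervalIntegral.integral_const_mul,
      intervalIntegral.integral_const, smul_eq_mul]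
    ring
  rw [e]
  have g : |2 * b * ((∫ t in X..(2 * X), nn N h t) - b * X)| ≤ 16 * (1 + 4 * C1) * X := by
    rw [abs_mul, abs_of_pos (by positivity : 0 < 2 * b)]
    calc 2 * b * |(∫ t in X..(2 * X), nn N h t) - b * X| ≤ 2 * b * ((1 + 4 * C1) * h * X) :=
          mul_le_mul_of_nonneg_left f (by positivity)
      _ = 2 * (b * h) * ((1 + 4 * C1) * X) := by ring
      _ ≤ 2 * 8 * ((1 + 4 * C1) * X) := by gcongr
      _ = _ := by ring
  have key : (∫ t in X..(2 * X), (nn N h t - b) ^ 2) +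
      2 * b * (∫ t in X..(2 * X), nn N h t) - b ^ 2 * X - Am b * X =
      ((∫ t in X..(2 * X), (nn N h t - b) ^ 2) - X / Real.pi ^ 2 * Real.log (1 + b)) +
      2 * b * ((∫ t in X..(2 * X), nn N h t) - b * X) := by
    unfold Am; ring
  rw [key]
  refine (abs_add_le _ _).trans ?_
  linarith

lemma log_diff {a b : ℝ} (hb : 0 < b) (hba : b ≤ a) (hab : a ≤ 2 * b + 1) :
    0 ≤ Real.log (1 + a) - Real.log (1 + b) ∧ Real.log (1 + a) - Real.log (1 + b) ≤ 1 := by
  constructor
  · have := Real.log_le_log (by linarith : 0 < 1 + b) (by linarith : 1 + b ≤ 1 + a)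
    linarith
  · have h1 : Real.log (1 + a) ≤ Real.log (2 * (1 + b)) :=
      Real.log_le_log (by linarith) (by linarith)
    rw [Real.log_mul (by norm_num) (by linarith)] at h1
    have := Real.log_two_lt_d9
    linarith

lemma inv_pi_sq : 0 < 1 / Real.pi ^ 2 ∧ 1 / Real.pi ^ 2 ≤ 1 := by
  have hpi := Real.pi_gt_three
  refine ⟨by positivity, ?_⟩
  rw [div_le_one (by positivity)]
  nlinarith

lemma Am_diff {a b : ℝ} (hb : 0 < b) (hba : b ≤ a) (hab : a ≤ 2 * b + 1) :
    a ^ 2 - b ^ 2 ≤ Am a - Am b ∧ Am a - Am b ≤ a ^ 2 - b ^ 2 + 1 := by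
  obtain ⟨h1, h2⟩ := log_diff hb hba hab
  obtain ⟨p1, p2⟩ := inv_pi_sq
  have e : Am a - Am b = a ^ 2 - b ^ 2 + 1 / Real.pi ^ 2 * (Real.log (1 + a) - Real.log (1 + b)) := by
    unfold Am; ring
  rw [e]
  have h3 : 0 ≤ 1 / Real.pi ^ 2 * (Real.log (1 + a) - Real.log (1 + b)) := mul_nonneg p1.le h1
  have h4 : 1 / Real.pi ^ 2 * (Real.log (1 + a) - Real.log (1 + b)) ≤ 1 * 1 :=
    mul_le_mul p2 h2 h1 zero_le_one
  constructor <;> linarith

lemma Am_nonneg {a : ℝ} (ha : 0 ≤ a) : 0 ≤ Am a := by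
  obtain ⟨p1, p2⟩ := inv_pi_sq
  have := Real.log_nonneg (by linarith : 1 ≤ 1 + a)
  unfold Am
  positivity

lemma Am_le {a : ℝ} (ha : 0 ≤ a) : Am a ≤ a ^ 2 + a := by
  obtain ⟨p1, p2⟩ := inv_pi_sq
  have h1 := Real.log_nonneg (by linarith : 1 ≤ 1 + a)
  have h2 := Real.log_le_sub_one_of_pos (by linarith : 0 < 1 + a)
  unfold Am
  nlinarith

/-- one dyadic block at the common scale -/
lemma block2 {C T1 T a X : ℝ} (hT1 : 10 ≤ T1)
    (hB : ∀ X : ℝ, T1 ≤ X → ∀ b : ℝ, 0 < b → b ^ 2 ≤ Real.log X →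
      2 * Real.pi * b / Real.log X ≤ 1 →
      |(∫ t in X..(2 * X), nn N (2 * Real.pi * b / Real.log X) t ^ 2) - Am b * X| ≤ C * X)
    (ha : 0 < a) (haT : 2 * a ^ 2 ≤ Real.log T) (hpT : 2 * Real.pi * a ≤ Real.log T)
    (hX1 : T1 ≤ X) (hTX : Real.sqrt T ≤ X) (hXT : X ≤ T) :
    |(∫ t in X..(2 * X), nn N (2 * Real.pi * a / Real.log T) t ^ 2) - Am a * X| ≤
      (C + 1 + Real.log (T / X)) * X := by
  have hX0 : 0 < X := by linarith
  have hT0 : 0 < T := by linarith
  have hpi := Real.pi_pos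
  have hL : 0 < Real.log T := Real.log_pos (by linarith)
  have hLX : 0 < Real.log X := Real.log_pos (by linarith)
  have hLle : Real.log X ≤ Real.log T := Real.log_le_log hX0 hXT
  have hhalf : Real.log T ≤ 2 * Real.log X := by
    have h1 : Real.log (Real.sqrt T) ≤ Real.log X := Real.log_le_log (Real.sqrt_pos.2 hT0) hTX
    rw [Real.log_sqrt hT0.le] at h1
    linarith
  set b := a * Real.log X / Real.log T with hb
  have hb0 : 0 < b := by positivity
  have hba : b ≤ a := by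
    rw [hb, div_le_iff₀ hL]
    exact mul_le_mul_of_nonneg_left hLle ha.le
  have hab : a ≤ 2 * b := by
    rw [hb]
    have : 2 * (a * Real.log X / Real.log T) = a * (2 * Real.log X) / Real.log T := by ring
    rw [this, le_div_iff₀ hL]
    exact mul_le_mul_of_nonneg_left hhalf ha.le
  have hbe : 2 * Real.pi * b / Real.log X = 2 * Real.pi * a / Real.log T := by
    rw [hb]; field_simp
  have hba2 : b ^ 2 ≤ a ^ 2 := pow_le_pow_left₀ hb0.le hba 2
  have h1 := hB X hX1 b hb0 (by linarith) (by rw [hbe]; exact (div_le_one hL).2 hpT)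
  rw [hbe] at h1
  obtain ⟨d1, d2⟩ := Am_diff hb0 hba (by linarith)
  have hlog : Real.log (T / X) = Real.log T - Real.log X := Real.log_div hT0.ne' hX0.ne'
  have hd : a ^ 2 - b ^ 2 ≤ Real.log (T / X) := by
    have e : a - b = a * (Real.log T - Real.log X) / Real.log T := by
      rw [hb]; field_simp
    have h2 : a ^ 2 - b ^ 2 ≤ 2 * a * (a - b) := by nlinarith
    have h3 : 2 * a * (a - b) = (2 * a ^ 2) * (Real.log T - Real.log X) / Real.log T := by
      rw [e]; ring
    rw [hlog]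
    refine h2.trans ?_
    rw [h3, div_le_iff₀ hL, mul_comm (Real.log T - Real.log X)]
    exact mul_le_mul_of_nonneg_right haT (by linarith)
  have g1 : 0 ≤ (Am a - Am b) * X := mul_nonneg (by linarith) hX0.le
  have g2 : (Am a - Am b) * X ≤ (Real.log (T / X) + 1) * X :=
    mul_le_mul_of_nonneg_right (by linarith) hX0.le
  have g3 : 0 ≤ (Real.log (T / X) + 1) * X := g1.trans g2
  rw [abs_le] at h1 ⊢
  constructor
  · nlinarith [h1.1]
  · nlinarith [h1.2]

/-- the sum over the blocks -/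
lemma dyadic {f : ℝ → ℝ} {C T1 T A : ℝ} (hf : ∀ A B, IntervalIntegrable f volume A B)
    (hall : ∀ X, T1 ≤ X → Real.sqrt T ≤ X → X ≤ T →
      |(∫ t in X..(2 * X), f t) - A * X| ≤ (C + 1 + Real.log (T / X)) * X)
    (hT : T1 ≤ Real.sqrt T) (hT0 : 0 < T) (J : ℕ) (hJ : Real.sqrt T ≤ T / 2 ^ J) :
    |(∫ t in (T / 2 ^ J)..T, f t) - A * (T - T / 2 ^ J)| ≤
      T * ((C + 1) * (1 - 1 / 2 ^ J) + 2 - (J + 2) / 2 ^ J) := by
  induction J with
  | zero => simp
  | succ J ih =>
    have h2X : 2 * (T / 2 ^ (J + 1)) = T / 2 ^ J := by rw [pow_succ]; field_simp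
    have hX0 : 0 < T / 2 ^ (J + 1) := by positivity
    have e : T / (T / 2 ^ (J + 1)) = 2 ^ (J + 1) := by field_simp
    have hXT : T / 2 ^ (J + 1) ≤ T := div_le_self hT0.le (one_le_pow₀ (by norm_num))
    have e4 : T * ((C + 1) * (1 - 1 / 2 ^ (J + 1)) + 2 - (((J + 1 : ℕ) : ℝ) + 2) / 2 ^ (J + 1)) =
        (C + 1 + (J + 1)) * (T / 2 ^ (J + 1)) +
        T * ((C + 1) * (1 - 1 / 2 ^ J) + 2 - (J + 2) / 2 ^ J) := by
      push_cast
      rw [pow_succ]
      field_simp
      ring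
    rw [e4]
    have h1 := ih (by rw [← h2X]; linarith)
    have h2 := hall (T / 2 ^ (J + 1)) (hT.trans hJ) hJ hXT
    rw [e, h2X] at h2
    have hl : Real.log (2 ^ (J + 1)) ≤ J + 1 := by
      rw [Real.log_pow]
      push_cast
      have := Real.log_two_lt_d9
      have hJ0 : (0 : ℝ) ≤ J := Nat.cast_nonneg _
      nlinarith
    have s := intervalIntegral.integral_add_adjacent_intervals (hf (T / 2 ^ (J + 1)) (T / 2 ^ J))
      (hf (T / 2 ^ J) T)
    have e3 : (∫ t in (T / 2 ^ (J + 1))..T, f t) - A * (T - T / 2 ^ (J + 1)) =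
        ((∫ t in (T / 2 ^ (J + 1))..(T / 2 ^ J), f t) - A * (T / 2 ^ (J + 1))) +
        ((∫ t in (T / 2 ^ J)..T, f t) - A * (T - T / 2 ^ J)) := by
      rw [← s, ← h2X]; ring
    rw [e3]
    refine (abs_add_le _ _).trans (add_le_add (h2.trans ?_) h1)
    exact mul_le_mul_of_nonneg_right (by linarith) hX0.le

lemma log_small {K : ℝ} (hK : 0 < K) : ∀ᶠ T : ℝ in atTop, 2 * (K * Real.log T) ^ 2 ≤ Real.sqrt T := by
  have hsq : Tendsto Real.sqrt atTop atTop := Real.tendsto_sqrt_atTop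
  have h1 := (Real.isLittleO_pow_log_id_atTop (n := 2)).bound (by positivity : 0 < 1 / (8 * K ^ 2))
  have h2 := hsq.eventually h1
  filter_upwards [h2, eventually_ge_atTop 1] with T h3 h4
  simp only [id, Real.norm_eq_abs] at h3
  rw [Real.log_sqrt (by linarith), abs_of_nonneg (by positivity),
    abs_of_nonneg (Real.sqrt_nonneg T)] at h3
  have h5 := mul_le_mul_of_nonneg_left h3 (by positivity : 0 ≤ 8 * K ^ 2)
  have e : 8 * K ^ 2 * (1 / (8 * K ^ 2) * Real.sqrt T) = Real.sqrt T := by field_simp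
  rw [e] at h5
  calc 2 * (K * Real.log T) ^ 2 = 8 * K ^ 2 * (Real.log T / 2) ^ 2 := by ring
    _ ≤ _ := h5

/-- **the second moment of the counts** -/
theorem dyad (hm : Monotone N) (h0 : ∀ t, 0 ≤ N t)
    (hRvM : ∃ C T0 : ℝ, 0 < C ∧ 10 ≤ T0 ∧ ∀ T : ℝ, T0 ≤ T →
      |N T - T * Real.log T / (2 * Real.pi)| ≤ C * T)
    (hnv : ∃ C T0 : ℝ, 0 < C ∧ 10 ≤ T0 ∧ ∀ X : ℝ, T0 ≤ X → ∀ b : ℝ, 0 < b →
      b * Real.log b ≤ Real.log X →
      |(∫ t in X..(2 * X), (nn N (2 * Real.pi * b / Real.log X) t - b) ^ 2) -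
        X / Real.pi ^ 2 * Real.log (1 + b)| ≤ C * X)
    (hcr : ∃ C : ℝ, 0 < C ∧ ∀ T : ℝ, 10 ≤ T → ∀ t h : ℝ, t ≤ T + 1 → 0 ≤ h → h ≤ 1 →
      nn N h t ≤ C * Real.log T) :
    ∃ C : ℝ, 0 < C ∧ ∀ᶠ T : ℝ in atTop, ∀ a : ℝ, 0 < a → 2 * a ^ 2 ≤ Real.log T →
      2 * Real.pi * a / Real.log T ≤ 1 ∧
      |(∫ t in (0 : ℝ)..T, nn N (2 * Real.pi * a / Real.log T) t ^ 2) - Am a * T| ≤ C * T := by
  obtain ⟨C, T1, hC, hT1, hB⟩ := block hm h0 hRvM hnv
  obtain ⟨K, hK, hcr⟩ := hcr
  refine ⟨C + 5, by linarith, ?_⟩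
  have hsq : Tendsto Real.sqrt atTop atTop := Real.tendsto_sqrt_atTop
  have hpi3 := Real.pi_gt_three
  have hpi4 := Real.pi_lt_four
  filter_upwards [Real.tendsto_log_atTop.eventually_ge_atTop 32, hsq.eventually_ge_atTop T1,
    log_small hK, log_small (by norm_num : (0 : ℝ) < 1), eventually_ge_atTop 10]
    with T h1 h3 h5 h5' h6 a ha haT
  have hpT : 2 * Real.pi * a ≤ Real.log T := by nlinarith [sq_nonneg (a - Real.pi)]
  have hT0 : 0 < T := by linarith
  have hL : 0 < Real.log T := by linarith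
  refine ⟨(div_le_one hL).2 hpT, ?_⟩
  set s := Real.sqrt T with hs
  have hss : s * s = T := Real.mul_self_sqrt hT0.le
  have hs1 : 1 ≤ s := by linarith
  have hAs : 2 * Am a ≤ s := by
    have := Am_le ha.le
    nlinarith [sq_nonneg (a - 1)]
  set J := Nat.log 2 ⌊s⌋₊ with hJ
  have hfl : (⌊s⌋₊ : ℝ) ≤ s := Nat.floor_le (by linarith)
  have hfl1 : ⌊s⌋₊ ≠ 0 := by
    have : 1 ≤ ⌊s⌋₊ := Nat.le_floor (by exact_mod_cast hs1)
    omega
  have hJ1 : (2 : ℝ) ^ J ≤ s := by
    have := Nat.pow_log_le_self 2 hfl1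
    have h7 : ((2 ^ J : ℕ) : ℝ) ≤ (⌊s⌋₊ : ℝ) := by exact_mod_cast this
    push_cast at h7
    linarith
  have hJ2 : s < 2 ^ (J + 1) := by
    have := Nat.lt_pow_succ_log_self (by norm_num : 1 < 2) ⌊s⌋₊
    have h7 : ⌊s⌋₊ + 1 ≤ 2 ^ (J + 1) := this
    have h8 : ((⌊s⌋₊ + 1 : ℕ) : ℝ) ≤ ((2 ^ (J + 1) : ℕ) : ℝ) := by exact_mod_cast h7
    push_cast at h8
    have := Nat.lt_floor_add_one s
    linarith
  have hp : (0 : ℝ) < 2 ^ J := by positivity
  have hA1 : s ≤ T / 2 ^ J := by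
    rw [le_div_iff₀ hp, ← hss]
    exact mul_le_mul_of_nonneg_left hJ1 (by linarith)
  have hA2 : T / 2 ^ J ≤ 2 * s := by
    rw [div_le_iff₀ hp, ← hss]
    rw [pow_succ] at hJ2
    nlinarith
  have hAT : T / 2 ^ J ≤ T := div_le_self hT0.le (one_le_pow₀ (by norm_num))
  have hh0 : 0 ≤ 2 * Real.pi * a / Real.log T := by positivity
  have hh1 : 2 * Real.pi * a / Real.log T ≤ 1 := (div_le_one hL).2 hpT
  have hd := dyadic (f := fun t => nn N (2 * Real.pi * a / Real.log T) t ^ 2) (A := Am a) (C := C)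
    (T1 := T1) (T := T) (nnsq_int hm h0 _)
    (fun X g1 g2 g3 => block2 hT1 hB ha haT hpT g1 g2 g3) h3 hT0 J hA1
  generalize 2 * Real.pi * a / Real.log T = h at *
  have s1 := intervalIntegral.integral_add_adjacent_intervals (nnsq_int hm h0 h 0 (T / 2 ^ J))
    (nnsq_int hm h0 h (T / 2 ^ J) T)
  have hY0 : 0 ≤ T / 2 ^ J := by positivity
  have c1 : ∫ t in (0 : ℝ)..(T / 2 ^ J), nn N h t ^ 2 ≤ T := by
    have := intervalIntegral.integral_mono_on hY0
      (nnsq_int hm h0 h 0 (T / 2 ^ J))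
      (intervalIntegrable_const : IntervalIntegrable (fun _ : ℝ => (K * Real.log T) ^ 2) volume 0
        (T / 2 ^ J)) (fun t ht => by
          have h7 := hcr T h6 t h (by linarith [ht.2]) hh0 hh1
          have h8 := nn_nonneg hm hh0 t
          exact pow_le_pow_left₀ h8 h7 2)
    rw [intervalIntegral.integral_const, smul_eq_mul, sub_zero] at this
    refine this.trans ?_
    calc T / 2 ^ J * (K * Real.log T) ^ 2 ≤ 2 * s * (K * Real.log T) ^ 2 :=
          mul_le_mul_of_nonneg_right hA2 (sq_nonneg _)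
      _ = s * (2 * (K * Real.log T) ^ 2) := by ring
      _ ≤ s * s := mul_le_mul_of_nonneg_left h5 (by linarith)
      _ = T := hss
  have c0 : 0 ≤ ∫ t in (0 : ℝ)..(T / 2 ^ J), nn N h t ^ 2 :=
    intervalIntegral.integral_nonneg hY0 fun t _ => sq_nonneg _
  have hAm := Am_nonneg ha.le
  have c2 : Am a * (T / 2 ^ J) ≤ T := by
    calc Am a * (T / 2 ^ J) ≤ Am a * (2 * s) := mul_le_mul_of_nonneg_left hA2 hAm
      _ = s * (2 * Am a) := by ring
      _ ≤ s * s := mul_le_mul_of_nonneg_left hAs (by linarith)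
      _ = T := hss
  have c20 : 0 ≤ Am a * (T / 2 ^ J) := mul_nonneg hAm hY0
  have bnd : T * ((C + 1) * (1 - 1 / 2 ^ J) + 2 - (J + 2) / 2 ^ J) ≤ (C + 3) * T := by
    have h9 : (C + 1) * (1 - 1 / 2 ^ J) + 2 - ((J : ℝ) + 2) / 2 ^ J ≤ C + 3 := by
      have p1 : 0 ≤ 1 / (2 : ℝ) ^ J := by positivity
      have p2 : 0 ≤ ((J : ℝ) + 2) / 2 ^ J := by positivity
      nlinarith
    nlinarith
  have hd2 := hd.trans bnd
  rw [← s1, abs_le]
  rw [abs_le] at hd2
  constructor <;> linarith [hd2.1, hd2.2]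

end Helper488PC
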