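import Pool.Agent.Helper488_pc.Quad
import Pool.Agent.Helper488_pc.Calc
import Pool.Agent.Helper488_pc.Dyad

/-! The pair counts from the second moment. -/

open MeasureTheory Set Filter Topology

namespace Helper488PC

variable {ι : Type*} {m g : ι → ℝ}

lemma npr_mono (hm : ∀ i, 0 ≤ m i) (S : Finset ι) : Monotone fun x : ℝ => npr S m g x := by
  intro x y hxy
  show npr S m g x ≤ npr S m g y
  unfold npr
  refine Finset.sum_le_sum fun p _ => ?_
  split_ifs with h1 h2 h3 h4
  · exact le_rfl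
  · exact absurd (h2.trans hxy) h3
  · have := mul_nonneg (hm p.1) (hm p.2)
    linarith
  · exact le_rfl
  · exact le_rfl

lemma npr_nonneg (hm : ∀ i, 0 ≤ m i) (S : Finset ι) (x : ℝ) : 0 ≤ npr S m g x := by
  unfold npr
  refine Finset.sum_nonneg fun p _ => ?_
  have := mul_nonneg (hm p.1) (hm p.2)
  split_ifs
  · linarith
  · simp
  · exact le_rfl

lemma ltp_nonneg (hm : ∀ i, 0 ≤ m i) (S : Finset ι) (x : ℝ) : 0 ≤ ltp S m g x := by
  unfold ltp
  refine Finset.sum_nonneg fun p _ => ?_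
  split_ifs
  · exact mul_nonneg (mul_nonneg (hm p.1) (hm p.2)) (le_max_left _ _)
  · exact le_rfl

lemma eqp_nonneg (hm : ∀ i, 0 ≤ m i) (S : Finset ι) : 0 ≤ eqp S m g := by
  unfold eqp
  refine Finset.sum_nonneg fun p _ => ?_
  split_ifs
  · exact mul_nonneg (hm p.1) (hm p.2)
  · exact le_rfl

/-- the normalization -/
noncomputable def U (T : ℝ) : ℝ := T / (2 * Real.pi) * Real.log T

/-- the normalized number of pairs -/
noncomputable def Ln (S : ℝ → Finset ι) (m g : ι → ℝ) (T u : ℝ) : ℝ :=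
  npr (S T) m g (2 * Real.pi * u / Real.log T) / U T

/-- the normalized number of equal pairs -/
noncomputable def Mn (S : ℝ → Finset ι) (m g : ι → ℝ) (T : ℝ) : ℝ := eqp (S T) m g / U T

variable {S : ℝ → Finset ι}

lemma U_pos {T : ℝ} (hT : 1 < T) : 0 < U T := by
  unfold U
  have := Real.log_pos hT
  have := Real.pi_pos
  positivity

lemma Ln_mono (hm : ∀ i, 0 ≤ m i) {T : ℝ} (hT : 1 < T) : Monotone fun u : ℝ => Ln S m g T u := by
  intro x y hxy
  have hL := Real.log_pos hT
  have hpi := Real.pi_pos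
  show Ln S m g T x ≤ Ln S m g T y
  unfold Ln
  refine div_le_div_of_nonneg_right (npr_mono hm (S T) ?_) (U_pos hT).le
  exact div_le_div_of_nonneg_right (by nlinarith) hL.le

lemma Ln_nonneg (hm : ∀ i, 0 ≤ m i) {T : ℝ} (hT : 1 < T) (u : ℝ) : 0 ≤ Ln S m g T u :=
  div_nonneg (npr_nonneg hm _ _) (U_pos hT).le

lemma Mn_nonneg (hm : ∀ i, 0 ≤ m i) {T : ℝ} (hT : 1 < T) : 0 ≤ Mn S m g T :=
  div_nonneg (eqp_nonneg hm _) (U_pos hT).le

/-- the integral of the pair counts -/
lemma I_eq {T a : ℝ} (hT : 1 < T) (ha : 0 ≤ a) :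
    ∫ u in (0 : ℝ)..a, Ln S m g T u =
      quad (S T) m g (2 * Real.pi * a / Real.log T) / (2 * T) - a / 2 * Mn S m g T := by
  have hL := Real.log_pos hT
  have hpi := Real.pi_pos
  have hT0 : 0 < T := by linarith
  have hc : 0 < 2 * Real.pi / Real.log T := by positivity
  have e1 : ∀ u : ℝ, 2 * Real.pi * u / Real.log T = 2 * Real.pi / Real.log T * u := fun u => by ring
  have h1 := npr_integral (S T) m g hc ha
  have h2 : ∫ u in (0 : ℝ)..a, Ln S m g T u =
      (ltp (S T) m g (2 * Real.pi / Real.log T * a) / (2 * Real.pi / Real.log T)) / U T := by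
    unfold Ln
    rw [intervalIntegral.integral_div, ← h1]
    simp_rw [e1]
  have h3 := quad_split (S T) m g (h := 2 * Real.pi * a / Real.log T) (by positivity)
  rw [h2, h3, e1 a]
  unfold Mn U
  field_simp
  ring

/-- second moment asymptotic -/
def Hyp (S : ℝ → Finset ι) (m g : ι → ℝ) : Prop :=
  ∃ C : ℝ, 0 < C ∧ ∀ᶠ T : ℝ in atTop, ∀ a : ℝ, 0 < a → 2 * a ^ 2 ≤ Real.log T →
    |quad (S T) m g (2 * Real.pi * a / Real.log T) - Am a * T| ≤ C * T

lemma I_asy (hH : Hyp S m g) : ∃ C : ℝ, 0 < C ∧ ∀ᶠ T : ℝ in atTop, ∀ a : ℝ, 0 ≤ a →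
    2 * a ^ 2 ≤ Real.log T →
    |(∫ u in (0 : ℝ)..a, Ln S m g T u) - (Am a / 2 - a / 2 * Mn S m g T)| ≤ C := by
  obtain ⟨C, hC, h⟩ := hH
  refine ⟨C, hC, ?_⟩
  filter_upwards [h, eventually_gt_atTop 1] with T h1 hT a ha haT
  rcases ha.eq_or_lt with h2 | h2
  · rw [← h2]
    simp [Am]
    exact hC.le
  · have h3 := h1 a h2 haT
    have hT0 : 0 < T := by linarith
    rw [I_eq hT ha]
    have e : quad (S T) m g (2 * Real.pi * a / Real.log T) / (2 * T) - a / 2 * Mn S m g T -
        (Am a / 2 - a / 2 * Mn S m g T) =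
        (quad (S T) m g (2 * Real.pi * a / Real.log T) - Am a * T) / (2 * T) := by
      field_simp
      ring
    rw [e, abs_div, abs_of_pos (by positivity : 0 < 2 * T), div_le_iff₀ (by positivity)]
    nlinarith

/-- the normalized number of equal pairs is bounded -/
lemma M_bdd (hm : ∀ i, 0 ≤ m i) (hH : Hyp S m g) : ∃ C : ℝ, 0 < C ∧ ∀ᶠ T : ℝ in atTop,
    Mn S m g T ≤ C := by
  obtain ⟨C, hC, h⟩ := hH
  refine ⟨2 + C, by linarith, ?_⟩
  filter_upwards [h, eventually_gt_atTop 1, Real.tendsto_log_atTop.eventually_ge_atTop 2]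
    with T h1 hT hL2
  have hT0 : 0 < T := by linarith
  have hL := Real.log_pos hT
  have hpi := Real.pi_pos
  have h3 := (abs_le.1 (h1 1 one_pos (by linarith))).2
  have h4 := quad_split (S T) m g (h := 2 * Real.pi * 1 / Real.log T) (by positivity)
  have h5 := ltp_nonneg (g := g) hm (S T) (2 * Real.pi * 1 / Real.log T)
  have h6 := Am_le (zero_le_one (α := ℝ))
  have h7 : 2 * Real.pi * 1 / Real.log T * eqp (S T) m g ≤ (2 + C) * T := by nlinarith
  unfold Mn U
  rw [div_le_iff₀ (by positivity)]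
  have h8 : eqp (S T) m g = (2 * Real.pi * 1 / Real.log T * eqp (S T) m g) *
      (Real.log T / (2 * Real.pi)) := by field_simp
  rw [h8]
  calc _ ≤ (2 + C) * T * (Real.log T / (2 * Real.pi)) :=
        mul_le_mul_of_nonneg_right h7 (by positivity)
    _ = _ := by ring

/-- **the integral of the error** -/
theorem core_int (hM : Mass) (hm : ∀ i, 0 ≤ m i) (hH : Hyp S m g) : ∃ C : ℝ, 0 < C ∧
    ∀ᶠ T : ℝ in atTop, ∀ a : ℝ, 0 ≤ a → 2 * a ^ 2 ≤ Real.log T →
    |(∫ u in (0 : ℝ)..a, (Ln S m g T u - pred u)) + a / 2 * (Mn S m g T - 1)| ≤ C := by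
  obtain ⟨C, hC, h⟩ := I_asy hH
  refine ⟨C + 4, by linarith, ?_⟩
  filter_upwards [h, eventually_gt_atTop 1] with T h1 hT a ha haT
  have h2 := h1 a ha haT
  have h3 := pred_int hM ha
  have hpc : Continuous pred := by
    have : pred = fun a => a - gsc a := funext pred_eq
    rw [this]
    exact continuous_id.sub gsc_cont
  rw [intervalIntegral.integral_sub (Ln_mono hm hT).intervalIntegrable
    (hpc.intervalIntegrable _ _)]
  have e : a ^ 2 / 2 - a / 2 + 1 / (2 * Real.pi ^ 2) * Real.log (1 + a) = Am a / 2 - a / 2 := by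
    unfold Am; ring
  rw [e] at h3
  rw [abs_le] at h2 h3 ⊢
  constructor <;> linarith [h2.1, h2.2, h3.1, h3.2]

/-- **the error is bounded** -/
theorem core_bdd (hM : Mass) (hm : ∀ i, 0 ≤ m i) (hH : Hyp S m g) : ∃ C : ℝ, 0 < C ∧
    ∀ᶠ T : ℝ in atTop, ∀ a : ℝ, 0 ≤ a → a ≤ Real.sqrt (Real.log T) / 2 →
    |Ln S m g T a - pred a| ≤ C := by
  obtain ⟨C, hC, h⟩ := I_asy hH
  obtain ⟨K, hK, hk⟩ := M_bdd hm hH
  refine ⟨3 + 2 * C + K, by linarith, ?_⟩
  filter_upwards [h, hk, eventually_gt_atTop 1, Real.tendsto_log_atTop.eventually_ge_atTop 64]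
    with T h1 h2 hT hL a ha haT
  set s := Real.sqrt (Real.log T) with hs
  have hss : s * s = Real.log T := Real.mul_self_sqrt (by linarith)
  have hs8 : 8 ≤ s := by
    rw [hs]
    exact Real.le_sqrt_of_sq_le (by norm_num; exact hL)
  have hM0 := Mn_nonneg (g := g) (S := S) hm hT
  have hmono := Ln_mono (g := g) (S := S) hm hT
  have hii : ∀ A B, IntervalIntegrable (fun u => Ln S m g T u) volume A B :=
    fun A B => hmono.intervalIntegrable
  obtain ⟨p1, p2⟩ := pred_bounds hM ha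
  have i1 := h1 a ha (by nlinarith)
  have i2 := h1 (a + 1) (by linarith) (by nlinarith)
  rw [abs_le] at i1 i2
  -- upper bound
  have up : Ln S m g T a ≤ a + 1 + 2 * C := by
    have s1 := intervalIntegral.integral_add_adjacent_intervals (hii 0 a) (hii a (a + 1))
    have s2 := intervalIntegral.integral_mono_on (by linarith : a ≤ a + 1)
      (intervalIntegrable_const : IntervalIntegrable (fun _ : ℝ => Ln S m g T a) volume a (a + 1))
      (hii a (a + 1)) (fun t ht => hmono ht.1)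
    rw [intervalIntegral.integral_const, smul_eq_mul, add_sub_cancel_left, one_mul] at s2
    have hA : Am (a + 1) - Am a ≤ 2 * a + 2 := by
      rcases ha.eq_or_lt with h0 | h0
      · rw [← h0]
        have := Am_le (zero_le_one (α := ℝ))
        have h0' : Am 0 = 0 := by simp [Am]
        rw [h0', zero_add]
        linarith
      · have := (Am_diff h0 (by linarith : a ≤ a + 1) (by linarith)).2
        nlinarith
    linarith [i1.1, i1.2, i2.1, i2.2]
  -- lower bound
  have lo : a - 3 / 2 - K - 2 * C ≤ Ln S m g T a := by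
    rcases lt_or_ge a 1 with h0 | h0
    · have := Ln_nonneg (g := g) (S := S) hm hT a
      linarith
    · have i3 := h1 (a - 1) (by linarith) (by nlinarith)
      rw [abs_le] at i3
      have s1 := intervalIntegral.integral_add_adjacent_intervals (hii 0 (a - 1)) (hii (a - 1) a)
      have s2 := intervalIntegral.integral_mono_on (by linarith : a - 1 ≤ a) (hii (a - 1) a)
        (intervalIntegrable_const : IntervalIntegrable (fun _ : ℝ => Ln S m g T a) volume (a - 1) a)
        (fun t ht => hmono ht.2)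
      rw [intervalIntegral.integral_const, smul_eq_mul, sub_sub_cancel, one_mul] at s2
      have hA : 2 * a - 1 ≤ Am a - Am (a - 1) := by
        have hlog : Real.log (1 + (a - 1)) ≤ Real.log (1 + a) :=
          Real.log_le_log (by linarith) (by linarith)
        have := mul_le_mul_of_nonneg_left hlog inv_pi_sq.1.le
        unfold Am
        nlinarith
      linarith [i1.1, i1.2, i3.1, i3.2]
  rw [abs_le]
  constructor <;> linarith

/-- **the mean error and the equal pairs** -/
theorem equiv_mean {M : ℝ → ℝ} {G : ℝ → ℝ → ℝ}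
    (h : ∃ C : ℝ, 0 < C ∧ ∀ a : ℝ, 0 ≤ a → ∀ᶠ T : ℝ in atTop, |G T a + a / 2 * (M T - 1)| ≤ C) :
    Tendsto M atTop (𝓝 1) ↔ ∀ ε : ℝ, 0 < ε → ∃ A : ℝ, ∀ a : ℝ, A ≤ a → ∃ T₀ : ℝ, ∀ T : ℝ, T₀ ≤ T →
      |1 / a * G T a| ≤ ε := by
  obtain ⟨C, hC, h⟩ := h
  constructor
  · intro hM ε hε
    refine ⟨max 1 (2 * C / ε), fun a ha => ?_⟩
    have ha1 : 1 ≤ a := (le_max_left _ _).trans ha
    have ha2 : 2 * C / ε ≤ a := (le_max_right _ _).trans ha
    rw [div_le_iff₀ hε] at ha2
    have h1 : ∀ᶠ T in atTop, |M T - 1| < ε := by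
      have := (Metric.tendsto_atTop.1 hM) ε hε
      obtain ⟨T0, hT0⟩ := this
      filter_upwards [eventually_ge_atTop T0] with T hT
      have := hT0 T hT
      rwa [Real.dist_eq] at this
    rw [← eventually_atTop]
    filter_upwards [h a (by linarith), h1] with T h2 h3
    have ha0 : 0 < a := by linarith
    rw [abs_mul, abs_of_pos (by positivity : 0 < 1 / a), one_div, inv_mul_le_iff₀ ha0]
    rw [abs_le] at h2 ⊢
    rw [abs_lt] at h3
    have h4 : a / 2 * (M T - 1) ≤ a / 2 * ε := mul_le_mul_of_nonneg_left h3.2.le (by linarith)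
    have h5 : a / 2 * (-ε) ≤ a / 2 * (M T - 1) := mul_le_mul_of_nonneg_left h3.1.le (by linarith)
    constructor <;> nlinarith [h2.1, h2.2]
  · intro hG
    rw [Metric.tendsto_atTop]
    intro ε hε
    obtain ⟨A, hA⟩ := hG (ε / 8) (by linarith)
    set a := max A (max 1 (8 * C / ε)) with ha
    have ha1 : 1 ≤ a := (le_max_left _ _).trans (le_max_right _ _)
    have ha2 : 8 * C / ε ≤ a := (le_max_right _ _).trans (le_max_right _ _)
    rw [div_le_iff₀ hε] at ha2
    obtain ⟨T1, hT1⟩ := hA a (le_max_left _ _)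
    obtain ⟨T2, hT2⟩ := eventually_atTop.1 (h a (by linarith))
    refine ⟨max T1 T2, fun T hT => ?_⟩
    have h1 := hT1 T ((le_max_left _ _).trans hT)
    have h2 := hT2 T ((le_max_right _ _).trans hT)
    have ha0 : 0 < a := by linarith
    rw [abs_mul, abs_of_pos (by positivity : 0 < 1 / a), one_div, inv_mul_le_iff₀ ha0] at h1
    rw [Real.dist_eq, abs_lt]
    rw [abs_le] at h1 h2
    constructor
    · by_contra hcon
      push Not at hcon
      nlinarith [h1.1, h1.2, h2.1, h2.2]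
    · by_contra hcon
      push Not at hcon
      nlinarith [h1.1, h1.2, h2.1, h2.2]

end Helper488PC
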