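import Mathlib

/-! Windowed counts of finite families of reals and their pairs. -/

open MeasureTheory Set
open scoped BigOperators

namespace Helper488PC

variable {ι : Type*}

/-- weighted number of points in the window `(t, t + h]` -/
noncomputable def win (S : Finset ι) (m g : ι → ℝ) (h t : ℝ) : ℝ :=
  ∑ i ∈ S, m i * (if t < g i ∧ g i ≤ t + h then 1 else 0)

lemma ind_eq (x y h : ℝ) : (fun t : ℝ => (if t < x ∧ x ≤ t + h then (1 : ℝ) else 0) *
    (if t < y ∧ y ≤ t + h then 1 else 0)) =
    (Ico (max x y - h) (min x y)).indicator 1 := by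
  funext t
  by_cases h1 : t ∈ Ico (max x y - h) (min x y)
  · rw [indicator_of_mem h1]
    obtain ⟨h2, h3⟩ := h1
    have h4 := le_max_left x y
    have h5 := le_max_right x y
    rw [lt_min_iff] at h3
    rw [if_pos ⟨h3.1, by linarith⟩, if_pos ⟨h3.2, by linarith⟩]
    simp
  · rw [indicator_of_notMem h1]
    by_cases h2 : t < x ∧ x ≤ t + h
    · by_cases h3 : t < y ∧ y ≤ t + h
      · exfalso
        apply h1
        refine ⟨?_, lt_min h2.1 h3.1⟩
        have := max_le h2.2 h3.2
        linarith
      · rw [if_neg h3, mul_zero]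
    · rw [if_neg h2, zero_mul]

lemma ind_int (x y h : ℝ) : ∫ t : ℝ, ((if t < x ∧ x ≤ t + h then (1 : ℝ) else 0) *
    (if t < y ∧ y ≤ t + h then 1 else 0)) = max 0 (h - |x - y|) := by
  rw [ind_eq, integral_indicator_one measurableSet_Ico, Real.volume_real_Ico, max_comm]
  congr 1
  rcases le_total x y with h1 | h1
  · rw [max_eq_right h1, min_eq_left h1, abs_of_nonpos (by linarith)]; ring
  · rw [max_eq_left h1, min_eq_right h1, abs_of_nonneg (by linarith)]; ring

lemma ind_integrable (x y h : ℝ) : Integrable fun t : ℝ =>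
    (if t < x ∧ x ≤ t + h then (1 : ℝ) else 0) * (if t < y ∧ y ≤ t + h then 1 else 0) := by
  rw [ind_eq]
  refine (integrable_indicator_iff measurableSet_Ico).mpr ?_
  have : IntegrableOn (fun _ : ℝ => (1 : ℝ)) (Ico (max x y - h) (min x y)) :=
    integrableOn_const (by rw [Real.volume_Ico]; exact ENNReal.ofReal_ne_top)
  exact this

/-- the pair sum -/
noncomputable def quad (S : Finset ι) (m g : ι → ℝ) (h : ℝ) : ℝ :=
  ∑ i ∈ S, ∑ j ∈ S, m i * m j * max 0 (h - |g i - g j|)

lemma win_sq (S : Finset ι) (m g : ι → ℝ) (h t : ℝ) : win S m g h t ^ 2 =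
    ∑ i ∈ S, ∑ j ∈ S, m i * m j * ((if t < g i ∧ g i ≤ t + h then (1 : ℝ) else 0) *
      (if t < g j ∧ g j ≤ t + h then 1 else 0)) := by
  unfold win
  rw [sq, Finset.sum_mul_sum]
  refine Finset.sum_congr rfl fun i _ => Finset.sum_congr rfl fun j _ => ?_
  ring

lemma win_sq_integrable (S : Finset ι) (m g : ι → ℝ) (h : ℝ) :
    Integrable fun t => win S m g h t ^ 2 := by
  simp_rw [win_sq]
  exact integrable_finsetSum _ fun i _ => integrable_finsetSum _ fun j _ =>
    (ind_integrable _ _ _).const_mul _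

lemma win_sq_int (S : Finset ι) (m g : ι → ℝ) (h : ℝ) :
    ∫ t, win S m g h t ^ 2 = quad S m g h := by
  simp_rw [win_sq]
  unfold quad
  rw [integral_finsetSum]
  · refine Finset.sum_congr rfl fun i _ => ?_
    rw [integral_finsetSum]
    · refine Finset.sum_congr rfl fun j _ => ?_
      rw [integral_const_mul, ind_int]
    · exact fun j _ => (ind_integrable _ _ _).const_mul _
  · exact fun i _ => integrable_finsetSum _ fun j _ => (ind_integrable _ _ _).const_mul _

/-- pairs of equal points -/
noncomputable def eqp (S : Finset ι) (m g : ι → ℝ) : ℝ :=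
  ∑ p ∈ S ×ˢ S, if g p.2 = g p.1 then m p.1 * m p.2 else 0

/-- ordered pairs of points, weighted -/
noncomputable def ltp (S : Finset ι) (m g : ι → ℝ) (h : ℝ) : ℝ :=
  ∑ p ∈ S ×ˢ S, if g p.2 < g p.1 then m p.1 * m p.2 * max 0 (h - (g p.1 - g p.2)) else 0

lemma quad_split (S : Finset ι) (m g : ι → ℝ) {h : ℝ} (hh : 0 ≤ h) :
    quad S m g h = h * eqp S m g + 2 * ltp S m g h := by
  have h1 : quad S m g h = ∑ p ∈ S ×ˢ S, m p.1 * m p.2 * max 0 (h - |g p.1 - g p.2|) := by
    unfold quad
    rw [Finset.sum_product]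
  have h2 : ltp S m g h = ∑ p ∈ S ×ˢ S,
      if g p.1 < g p.2 then m p.1 * m p.2 * max 0 (h - (g p.2 - g p.1)) else 0 := by
    unfold ltp
    rw [Finset.sum_product, Finset.sum_comm, ← Finset.sum_product']
    refine Finset.sum_congr rfl fun p _ => ?_
    split_ifs
    · ring
    · rfl
  have h3 : h * eqp S m g + 2 * ltp S m g h = h * eqp S m g + ltp S m g h +
    ∑ p ∈ S ×ˢ S, (if g p.1 < g p.2 then m p.1 * m p.2 * max 0 (h - (g p.2 - g p.1)) else 0) := by
    rw [← h2]; ring
  rw [h3, h1]
  unfold eqp ltp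
  rw [Finset.mul_sum, ← Finset.sum_add_distrib, ← Finset.sum_add_distrib]
  refine Finset.sum_congr rfl fun p _ => ?_
  rcases lt_trichotomy (g p.1) (g p.2) with h4 | h4 | h4
  · rw [if_neg h4.ne', if_neg (not_lt.mpr h4.le), if_pos h4, abs_of_neg (by linarith)]
    simp only [mul_zero, zero_add]
    congr 2
    ring
  · rw [if_pos h4.symm, if_neg (by rw [h4]; exact lt_irrefl _), if_neg (by rw [h4]; exact lt_irrefl _),
      h4, sub_self, abs_zero, sub_zero, max_eq_right hh]
    ring
  · rw [if_neg h4.ne, if_pos h4, if_neg (not_lt.mpr h4.le), abs_of_pos (by linarith)]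
    ring

lemma step_integral {d c a : ℝ} (hd : 0 < d) (hc : 0 < c) (ha : 0 ≤ a) :
    ∫ u in (0 : ℝ)..a, (if d ≤ c * u then (1 : ℝ) else 0) = max 0 (c * a - d) / c := by
  have hdc : 0 < d / c := by positivity
  have e : ∀ u : ℝ, (if d ≤ c * u then (1 : ℝ) else 0) = (Ici (d / c)).indicator 1 u := by
    intro u
    by_cases h : d ≤ c * u
    · rw [if_pos h, indicator_of_mem]
      · simp
      · rw [mem_Ici, div_le_iff₀ hc]; linarith
    · rw [if_neg h, indicator_of_notMem]
      rw [mem_Ici, div_le_iff₀ hc]; linarith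
  simp_rw [e]
  rw [intervalIntegral.integral_of_le ha, integral_indicator measurableSet_Ici,
    Measure.restrict_restrict measurableSet_Ici]
  have h2 : Ici (d / c) ∩ Ioc 0 a = Icc (d / c) a := by
    ext u
    simp only [mem_inter_iff, mem_Ici, mem_Ioc, mem_Icc]
    constructor
    · rintro ⟨h1, h2, h3⟩; exact ⟨h1, h3⟩
    · rintro ⟨h1, h2⟩; exact ⟨h1, by linarith, h2⟩
  rw [h2]
  simp only [Pi.one_apply, integral_const, smul_eq_mul, mul_one, MeasurableSet.univ,
    measureReal_restrict_apply, univ_inter, Real.volume_real_Icc]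
  rw [max_comm, ← max_div_div_right hc.le, zero_div]
  congr 1
  field_simp

lemma step_intervalIntegrable (d c A B : ℝ) : IntervalIntegrable
    (fun u : ℝ => if d ≤ c * u then (1 : ℝ) else 0) volume A B := by
  refine (intervalIntegrable_const (c := (1 : ℝ))).mono_fun ?_ ?_
  · refine Measurable.aestronglyMeasurable ?_
    exact Measurable.ite (measurableSet_le measurable_const (by fun_prop)) measurable_const
      measurable_const
  · refine Filter.Eventually.of_forall fun t => ?_
    show ‖(if d ≤ c * t then (1 : ℝ) else 0)‖ ≤ ‖(1 : ℝ)‖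
    split_ifs <;> simp

/-- the number of ordered pairs at distance at most `x` -/
noncomputable def npr (S : Finset ι) (m g : ι → ℝ) (x : ℝ) : ℝ :=
  ∑ p ∈ S ×ˢ S, if g p.2 < g p.1 then m p.1 * m p.2 * (if g p.1 - g p.2 ≤ x then 1 else 0) else 0

lemma npr_integral (S : Finset ι) (m g : ι → ℝ) {c a : ℝ} (hc : 0 < c) (ha : 0 ≤ a) :
    ∫ u in (0 : ℝ)..a, npr S m g (c * u) = ltp S m g (c * a) / c := by
  unfold npr ltp
  rw [intervalIntegral.integral_finsetSum, Finset.sum_div]
  · refine Finset.sum_congr rfl fun p _ => ?_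
    by_cases h : g p.2 < g p.1
    · simp only [if_pos h]
      rw [intervalIntegral.integral_const_mul, step_integral (by linarith) hc ha, mul_div_assoc]
    · simp only [if_neg h]
      simp
  · intro p _
    by_cases h : g p.2 < g p.1
    · simp only [if_pos h]
      exact (step_intervalIntegrable _ _ _ _).const_mul _
    · simp only [if_neg h]
      exact intervalIntegrable_const

end Helper488PC
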