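import Pool.Agent.Helper488_pc.Core
import Pool.Agent.Helper488_pc.Cnt
import Pool.Agent.H336R2.V.ExistsLam

/-! The pair counts of the zeros of zeta. -/

open MeasureTheory Set Filter Topology
open scoped BigOperators
open SG (NZ ZS ZS_finite zmult NZ_eq NZ_mono NZ_nonpos)

namespace Helper488PC

lemma mass : Mass := ⟨H336V.ExistsLam.sinc_sq_integrable, H336V.ExistsLam.integral_sinc_sq⟩

/-- the two counting functions -/
lemma cnt_n {t h : ℝ} (ht : 0 < t) (hh : 0 ≤ h) :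
    (Pool.Agent.TH850.UV.cnt t h : ℝ) = n h t := by
  classical
  have hset : {s : ℂ | s ∈ Pool.Agent.TH850.UR.zeros ∧ (t < s.im ∧ s.im ≤ t + h)} =
      ((Z (t + h)).filter fun s => t < s.im : Finset ℂ) := by
    ext s
    simp only [mem_ofPred_eq, Finset.coe_filter, mem_Z,
      Pool.Agent.TH850.UR.zeros, SG.ZS]
    constructor
    · rintro ⟨⟨a1, a2, a3⟩, a4, a5⟩
      exact ⟨⟨a1, a2, a3, ht.trans a4, a5⟩, a4⟩
    · rintro ⟨⟨a1, a2, a3, _, a5⟩, a4⟩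
      exact ⟨⟨a1, a2, a3⟩, a4, a5⟩
  rw [n_eq hh]
  unfold Pool.Agent.TH850.UV.cnt
  rw [hset, finsum_mem_coe_finset]
  push_cast
  rfl

lemma hnv0 : ∃ C T0 : ℝ, 0 < C ∧ 10 ≤ T0 ∧ ∀ X : ℝ, T0 ≤ X → ∀ b : ℝ, 0 < b →
      b * Real.log b ≤ Real.log X →
      |(∫ t in X..(2 * X), (nn (fun t => (NZ t : ℝ)) (2 * Real.pi * b / Real.log X) t - b) ^ 2) -
        X / Real.pi ^ 2 * Real.log (1 + b)| ≤ C * X := by
  obtain ⟨C, T0, hC, hT0, h⟩ := Pool.Agent.TH850.UV.nv2 1 le_rfl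
  refine ⟨C, T0, hC, hT0, fun X hX b hb hbl => ?_⟩
  have h1 := (h X hX b hb (by linarith)).2
  have hL : 0 < Real.log X := Real.log_pos (by linarith)
  have hpi := Real.pi_pos
  have hh : 0 ≤ 2 * Real.pi * b / Real.log X := by positivity
  generalize 2 * Real.pi * b / Real.log X = h' at *
  have e : ∫ t in X..(2 * X), (nn (fun t => (NZ t : ℝ)) h' t - b) ^ 2 =
      ∫ t in X..(2 * X), ((Pool.Agent.TH850.UV.cnt t h' : ℝ) - b) ^ 2 := by
    refine intervalIntegral.integral_congr fun t ht => ?_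
    rw [uIcc_of_le (by linarith)] at ht
    show (nn (fun t => (NZ t : ℝ)) h' t - b) ^ 2 =
      ((Pool.Agent.TH850.UV.cnt t h' : ℝ) - b) ^ 2
    rw [cnt_n (by linarith [ht.1]) hh]
    rfl
  rw [e]
  exact h1

lemma rvm : ∃ C T0 : ℝ, 0 < C ∧ 10 ≤ T0 ∧ ∀ T : ℝ, T0 ≤ T →
      |(fun t => (NZ t : ℝ)) T - T * Real.log T / (2 * Real.pi)| ≤ C * T := by
  obtain ⟨C, T0, hC, hT0, h⟩ := Pool.Agent.W54.TCF.NT_asymp
  refine ⟨C, T0, hC, hT0, fun T hT => ?_⟩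
  show |(NZ T : ℝ) - T * Real.log T / (2 * Real.pi)| ≤ C * T
  rw [NZ_NN]
  exact h T hT

/-- the second moment of the counts of the zeros -/
theorem hyp : Hyp Z zm im := by
  obtain ⟨K, hK, hc⟩ := crude
  obtain ⟨C, hC, h⟩ := dyad (N := fun t => (NZ t : ℝ))
    (fun x y hxy => by
      show (NZ x : ℝ) ≤ NZ y
      exact_mod_cast NZ_mono hxy) (fun t => Nat.cast_nonneg _) rvm hnv0 ⟨K, hK, hc⟩
  refine ⟨C + 1, by linarith, ?_⟩
  filter_upwards [h, log_small hK, eventually_ge_atTop 10] with T h1 h2 hT a ha haT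
  obtain ⟨h3, h4⟩ := h1 a ha haT
  have hL : 0 < Real.log T := Real.log_pos (by linarith)
  have hpi := Real.pi_pos
  have hh : 0 ≤ 2 * Real.pi * a / Real.log T := by positivity
  have hq := quad_n hK hT hh h3 (fun t h => hc T hT t h)
  have h5 : Real.sqrt T ≤ T := by
    rw [Real.sqrt_le_left (by linarith)]
    nlinarith
  have h6 : (K * Real.log T) ^ 2 ≤ T := by
    have := sq_nonneg (K * Real.log T)
    linarith
  have e : ∫ t in (0 : ℝ)..T, nn (fun t => (NZ t : ℝ)) (2 * Real.pi * a / Real.log T) t ^ 2 =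
      ∫ t in (0 : ℝ)..T, n (2 * Real.pi * a / Real.log T) t ^ 2 := rfl
  rw [e] at h4
  rw [abs_le] at h4 hq ⊢
  constructor <;> linarith [h4.1, h4.2, hq.1, hq.2]

/-- the nontrivial zeros of `ζ` -/
def ZZ : Set ℂ := {s : ℂ | riemannZeta s = 0 ∧ 0 < s.re ∧ s.re < 1}

/-- the pairs counted by `N*(T, a)` -/
def Pst (T a : ℝ) : Set (ℂ × ℂ) := {p : ℂ × ℂ | p.1 ∈ ZZ ∧ p.2 ∈ ZZ ∧ 0 < p.1.im ∧ p.1.im ≤ T ∧
    0 < p.1.im - p.2.im ∧ p.1.im - p.2.im ≤ 2 * Real.pi * a / Real.log T}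

/-- the pairs of equal ordinates -/
def Peq (T : ℝ) : Set (ℂ × ℂ) := {p : ℂ × ℂ | p.1 ∈ ZZ ∧ p.2 ∈ ZZ ∧ 0 < p.1.im ∧ p.1.im ≤ T ∧
    p.2.im = p.1.im}

/-- the number of pairs -/
noncomputable def Nst (T a : ℝ) : ℕ := ∑ᶠ p ∈ Pst T a, zmult p.1 * zmult p.2

/-- the number of pairs of equal ordinates -/
noncomputable def Neq (T : ℝ) : ℕ := ∑ᶠ p ∈ Peq T, zmult p.1 * zmult p.2

lemma low : ∃ δ : ℝ, 0 < δ ∧ ∀ s : ℂ, s ∈ ZZ → 0 < s.im → δ < s.im := by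
  classical
  rcases (Z 1).eq_empty_or_nonempty with h | h
  · refine ⟨1, one_pos, fun s hs h0 => ?_⟩
    by_contra hcon
    push Not at hcon
    have : s ∈ Z 1 := mem_Z.2 ⟨hs.1, hs.2.1, hs.2.2, h0, hcon⟩
    rw [h] at this
    simp at this
  · obtain ⟨s0, hs0, hmin⟩ := Finset.exists_min_image (Z 1) (fun s => s.im) h
    have h1 := (mem_Z.1 hs0)
    have h10 : 0 < s0.im := h1.2.2.2.1
    refine ⟨min (s0.im / 2) 1, lt_min (by linarith) one_pos, fun s hs h0 => ?_⟩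
    by_contra hcon
    push Not at hcon
    have h2 : s.im ≤ 1 := hcon.trans (min_le_right _ _)
    have h3 : s0.im ≤ s.im := hmin s (mem_Z.2 ⟨hs.1, hs.2.1, hs.2.2, h0, h2⟩)
    have h4 : s.im ≤ s0.im / 2 := hcon.trans (min_le_left _ _)
    linarith

lemma Nst_eq {δ T a : ℝ} (hδ : ∀ s : ℂ, s ∈ ZZ → 0 < s.im → δ < s.im)
    (hd : 2 * Real.pi * a / Real.log T ≤ δ) :
    (Nst T a : ℝ) = npr (Z T) zm im (2 * Real.pi * a / Real.log T) := by
  classical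
  have hset : Pst T a = (((Z T ×ˢ Z T).filter fun p => p.2.im < p.1.im ∧
      p.1.im - p.2.im ≤ 2 * Real.pi * a / Real.log T : Finset (ℂ × ℂ)) : Set (ℂ × ℂ)) := by
    ext p
    simp only [Pst, Finset.coe_filter, Finset.mem_product, mem_Z, Set.mem_ofPred_eq]
    constructor
    · rintro ⟨a1, a2, a3, a4, a5, a6⟩
      have a7 : 0 < p.2.im := by
        by_contra hcon
        push Not at hcon
        have := hδ p.1 a1 a3
        linarith
      exact ⟨⟨⟨a1.1, a1.2.1, a1.2.2, a3, a4⟩, ⟨a2.1, a2.2.1, a2.2.2, a7, by linarith⟩⟩,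
        by linarith, a6⟩
    · rintro ⟨⟨⟨a1, a2, a3, a4, a5⟩, ⟨b1, b2, b3, b4, b5⟩⟩, c1, c2⟩
      exact ⟨⟨a1, a2, a3⟩, ⟨b1, b2, b3⟩, a4, a5, by linarith, c2⟩
  unfold Nst npr
  rw [hset, finsum_mem_coe_finset, Finset.sum_filter]
  push_cast
  refine Finset.sum_congr rfl fun p _ => ?_
  unfold zm im
  by_cases h1 : p.2.im < p.1.im
  · rw [if_pos h1]
    by_cases h2 : p.1.im - p.2.im ≤ 2 * Real.pi * a / Real.log T
    · rw [if_pos ⟨h1, h2⟩, if_pos h2, mul_one]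
    · rw [if_neg (fun h => h2 h.2), if_neg h2, mul_zero]
  · rw [if_neg (fun h => h1 h.1), if_neg h1]

lemma Neq_eq (T : ℝ) : (Neq T : ℝ) = eqp (Z T) zm im := by
  classical
  have hset : Peq T = (((Z T ×ˢ Z T).filter fun p => p.2.im = p.1.im : Finset (ℂ × ℂ)) :
      Set (ℂ × ℂ)) := by
    ext p
    simp only [Peq, Finset.coe_filter, Finset.mem_product, mem_Z, Set.mem_ofPred_eq]
    constructor
    · rintro ⟨a1, a2, a3, a4, a5⟩
      exact ⟨⟨⟨a1.1, a1.2.1, a1.2.2, a3, a4⟩, ⟨a2.1, a2.2.1, a2.2.2, by rw [a5]; exact a3,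
        by rw [a5]; exact a4⟩⟩, a5⟩
    · rintro ⟨⟨⟨a1, a2, a3, a4, a5⟩, ⟨b1, b2, b3, b4, b5⟩⟩, c⟩
      exact ⟨⟨a1, a2, a3⟩, ⟨b1, b2, b3⟩, a4, a5, c⟩
  unfold Neq eqp
  rw [hset, finsum_mem_coe_finset, Finset.sum_filter]
  push_cast
  refine Finset.sum_congr rfl fun p _ => ?_
  unfold zm im
  by_cases h1 : p.2.im = p.1.im
  · rw [if_pos h1]
  · rw [if_neg h1]

/-- the error in the pair correlation conjecture -/
noncomputable def Er (T a : ℝ) : ℝ := (Nst T a : ℝ) / (T / (2 * Real.pi) * Real.log T) -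
  ∫ u in (0 : ℝ)..a, (1 - Real.sinc (Real.pi * u) ^ 2)

/-- the normalized number of pairs of equal ordinates -/
noncomputable def Ms (T : ℝ) : ℝ := (Neq T : ℝ) / (T / (2 * Real.pi) * Real.log T)

lemma Ms_eq (T : ℝ) : Ms T = Mn Z zm im T := by
  unfold Ms Mn U
  rw [Neq_eq]

lemma Er_eq {δ T a : ℝ} (hδ : ∀ s : ℂ, s ∈ ZZ → 0 < s.im → δ < s.im)
    (hd : 2 * Real.pi * a / Real.log T ≤ δ) : Er T a = Ln Z zm im T a - pred a := by
  unfold Er Ln U pred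
  rw [Nst_eq hδ hd]

theorem main_unif : ∃ C : ℝ, 0 < C ∧ ∃ T₀ : ℝ, ∀ T : ℝ, T₀ ≤ T → Ms T ≤ C ∧
    ∀ a : ℝ, 0 ≤ a → a ≤ Real.sqrt (Real.log T) / 2 →
      |Er T a| ≤ C ∧ IntervalIntegrable (Er T) volume 0 a ∧
      |(∫ u in (0 : ℝ)..a, Er T u) + a / 2 * (Ms T - 1)| ≤ C := by
  obtain ⟨C1, hC1, h1⟩ := core_int mass zm_nonneg hyp
  obtain ⟨C2, hC2, h2⟩ := core_bdd mass zm_nonneg hyp
  obtain ⟨C3, hC3, h3⟩ := M_bdd zm_nonneg hyp
  obtain ⟨δ, hδ, hlow⟩ := low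
  refine ⟨C1 + C2 + C3, by linarith, ?_⟩
  rw [← eventually_atTop]
  have hsl : Tendsto (fun T => Real.sqrt (Real.log T)) atTop atTop :=
    Real.tendsto_sqrt_atTop.comp Real.tendsto_log_atTop
  filter_upwards [h1, h2, h3, Real.tendsto_log_atTop.eventually_ge_atTop 1,
    hsl.eventually_ge_atTop (Real.pi / δ), eventually_gt_atTop 1] with T g1 g2 g3 g4 g5 g6
  rw [Ms_eq]
  refine ⟨by linarith, fun a ha has => ?_⟩
  set s := Real.sqrt (Real.log T) with hs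
  have hss : s * s = Real.log T := Real.mul_self_sqrt (by linarith)
  have hs0 : 0 < s := Real.sqrt_pos.2 (by linarith)
  have hpi := Real.pi_pos
  have hd : ∀ u : ℝ, u ≤ a → 2 * Real.pi * u / Real.log T ≤ δ := by
    intro u hu
    rw [div_le_iff₀ (by linarith), ← hss]
    rw [div_le_iff₀ hδ] at g5
    have : 2 * Real.pi * u ≤ Real.pi * s := by nlinarith
    nlinarith
  have haT : 2 * a ^ 2 ≤ Real.log T := by nlinarith
  refine ⟨?_, ?_, ?_⟩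
  · rw [Er_eq hlow (hd a le_rfl)]
    have := g2 a ha has
    linarith
  · have hpc : Continuous pred := by
      have : pred = fun a => a - gsc a := funext pred_eq
      rw [this]
      exact continuous_id.sub gsc_cont
    have h4 : IntervalIntegrable (fun u => Ln Z zm im T u - pred u) volume 0 a :=
      (Ln_mono zm_nonneg g6).intervalIntegrable.sub (hpc.intervalIntegrable _ _)
    refine h4.congr fun u hu => ?_
    rw [uIoc_of_le ha] at hu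
    exact (Er_eq hlow (hd u hu.2)).symm
  · have e : ∫ u in (0 : ℝ)..a, Er T u = ∫ u in (0 : ℝ)..a, (Ln Z zm im T u - pred u) := by
      refine intervalIntegral.integral_congr fun u hu => ?_
      rw [uIcc_of_le ha] at hu
      exact Er_eq hlow (hd u hu.2)
    rw [e]
    have := g1 a ha haT
    linarith

theorem main_mean : Tendsto Ms atTop (𝓝 1) ↔ ∀ ε : ℝ, 0 < ε → ∃ A : ℝ, ∀ a : ℝ, A ≤ a →
    ∃ T₀ : ℝ, ∀ T : ℝ, T₀ ≤ T → |1 / a * ∫ u in (0 : ℝ)..a, Er T u| ≤ ε := by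
  refine equiv_mean (M := Ms) (G := fun T a => ∫ u in (0 : ℝ)..a, Er T u) ?_
  obtain ⟨C, hC, T₀, h⟩ := main_unif
  refine ⟨C, hC, fun a ha => ?_⟩
  have hsl : Tendsto (fun T => Real.sqrt (Real.log T)) atTop atTop :=
    Real.tendsto_sqrt_atTop.comp Real.tendsto_log_atTop
  filter_upwards [eventually_ge_atTop T₀, hsl.eventually_ge_atTop (2 * a)] with T h1 h2
  exact ((h T h1).2 a ha (by linarith)).2.2

/-- the sets of pairs that are counted are finite -/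
theorem Pst_finite (T a : ℝ) : (Pst T a).Finite := by
  set D := 2 * Real.pi * a / Real.log T with hD
  have h1 : ∀ A B : ℝ, {s : ℂ | s ∈ ZZ ∧ A ≤ s.im ∧ s.im ≤ B}.Finite := by
    intro A B
    have hc : IsCompact (Icc (0 : ℝ) 1 ×ℂ Icc A B) := isCompact_Icc.reProdIm isCompact_Icc
    refine hc.inter_riemannZetaZeros_finite.subset ?_
    rintro s ⟨⟨a1, a2, a3⟩, a4, a5⟩
    refine ⟨?_, a1⟩
    rw [Complex.mem_reProdIm]
    exact ⟨⟨a2.le, a3.le⟩, a4, a5⟩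
  refine ((h1 0 T).prod (h1 (-|D|) T)).subset ?_
  rintro p ⟨a1, a2, a3, a4, a5, a6⟩
  refine ⟨⟨a1, a3.le, a4⟩, ⟨a2, ?_, by linarith⟩⟩
  have := le_abs_self D
  linarith

theorem Peq_finite (T : ℝ) : (Peq T).Finite := by
  have h1 : ∀ A B : ℝ, {s : ℂ | s ∈ ZZ ∧ A ≤ s.im ∧ s.im ≤ B}.Finite := by
    intro A B
    have hc : IsCompact (Icc (0 : ℝ) 1 ×ℂ Icc A B) := isCompact_Icc.reProdIm isCompact_Icc
    refine hc.inter_riemannZetaZeros_finite.subset ?_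
    rintro s ⟨⟨a1, a2, a3⟩, a4, a5⟩
    refine ⟨?_, a1⟩
    rw [Complex.mem_reProdIm]
    exact ⟨⟨a2.le, a3.le⟩, a4, a5⟩
  refine ((h1 0 T).prod (h1 0 T)).subset ?_
  rintro p ⟨a1, a2, a3, a4, a5⟩
  exact ⟨⟨a1, a3.le, a4⟩, ⟨a2, by rw [a5]; exact a3.le, by rw [a5]; exact a4⟩⟩

end Helper488PC
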